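import Mathlib

open Finset

namespace AlmostInt

/-- the weight of a pair of sizes `a`, `b` in the inequality of Bollobas -/
noncomputable def wt (a b : ℕ) : ℚ := 1 / ((a + b).choose a : ℚ)

theorem wt_pos (a b : ℕ) : 0 < wt a b := by
  unfold wt
  have : 0 < (a + b).choose a := Nat.choose_pos (Nat.le_add_right a b)
  positivity

theorem wt_zero_right (a : ℕ) : wt a 0 = 1 := by
  simp [wt]

theorem wt_step (a b n : ℕ) (hb : 1 ≤ b) :
    (b : ℚ) * wt a (b - 1) + ((n : ℚ) - a - b) * wt a b = n * wt a b := by
  obtain ⟨c, rfl⟩ : ∃ c, b = c + 1 := ⟨b - 1, by omega⟩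
  simp only [Nat.add_sub_cancel]
  have h : (c + 1 : ℚ) * wt a c = ((a : ℚ) + c + 1) * wt a (c + 1) := by
    unfold wt
    have h1 : ((a + c).choose a : ℚ) ≠ 0 := by
      exact_mod_cast (Nat.choose_pos (Nat.le_add_right a c)).ne'
    have h2 : ((a + (c + 1)).choose a : ℚ) ≠ 0 := by
      exact_mod_cast (Nat.choose_pos (Nat.le_add_right a (c + 1))).ne'
    rw [mul_one_div, mul_one_div, div_eq_div_iff h1 h2]
    have h3 := Nat.add_one_mul_choose_eq (a + c) c
    have h4 : (a + c).choose c = (a + c).choose a := by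
      rw [← Nat.choose_symm_add, add_comm]
    have h5 : (a + c).succ.choose c.succ = (a + (c + 1)).choose a := by
      have : (a + c).succ = a + (c + 1) := by omega
      rw [this, Nat.choose_symm_add]
    rw [h4, h5] at h3
    have h6 : (((a + c).succ * (a + c).choose a : ℕ) : ℚ) = ((a + (c + 1)).choose a * c.succ : ℕ) := by
      exact_mod_cast h3
    push_cast at h6
    linarith
  push_cast
  linear_combination h

theorem bollobas_aux {α ι : Type*} [DecidableEq α] (n : ℕ) :
    ∀ (X : Finset α) (I : Finset ι) (A B : ι → Finset α), X.card = n →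
      (∀ i ∈ I, A i ⊆ X ∧ B i ⊆ X ∧ Disjoint (A i) (B i)) →
      (∀ i ∈ I, ∀ j ∈ I, i ≠ j → ¬ Disjoint (A i) (B j)) →
      (∑ i ∈ I, wt #(A i) #(B i) ≤ 1) ∧
      ((∑ i ∈ I, wt #(A i) #(B i) = 1) → ∀ ρ : α → ℕ, ∃ i ∈ I, ∀ a ∈ A i, ∀ b ∈ B i, ρ a ≤ ρ b) := by
  classical
  induction n with
  | zero =>
    intro X I A B hX h1 h2
    have hX' : X = ∅ := Finset.card_eq_zero.1 hX
    subst hX'
    have hsub : ∀ i ∈ I, A i = ∅ ∧ B i = ∅ := fun i hi =>
      ⟨Finset.subset_empty.1 (h1 i hi).1, Finset.subset_empty.1 (h1 i hi).2.1⟩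
    have hcard : I.card ≤ 1 := by
      rw [Finset.card_le_one]
      intro i hi j hj
      by_contra hij
      apply h2 i hi j hj hij
      rw [(hsub i hi).1]
      exact Finset.disjoint_empty_left _
    have hsum : ∑ i ∈ I, wt #(A i) #(B i) = I.card := by
      rw [Finset.sum_congr rfl (g := fun _ => (1 : ℚ))]
      · simp
      · intro i hi
        rw [(hsub i hi).2, Finset.card_empty, wt_zero_right]
    refine ⟨by rw [hsum]; exact_mod_cast hcard, ?_⟩
    intro h ρ
    rw [hsum] at h
    have : I.card = 1 := by exact_mod_cast h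
    obtain ⟨i, hi⟩ := Finset.card_pos.1 (by omega : 0 < I.card)
    refine ⟨i, hi, ?_⟩
    intro a ha
    rw [(hsub i hi).1] at ha
    simp at ha
  | succ n ih =>
    intro X I A B hX h1 h2
    by_cases hE : ∃ i ∈ I, B i = ∅
    · obtain ⟨i, hi, hBi⟩ := hE
      have hI : I = {i} := by
        ext j
        simp only [Finset.mem_singleton]
        constructor
        · intro hj
          by_contra hij
          apply h2 j hj i hi hij
          rw [hBi]
          exact Finset.disjoint_empty_right _
        · rintro rfl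
          exact hi
      subst hI
      rw [Finset.sum_singleton, hBi, Finset.card_empty, wt_zero_right]
      refine ⟨le_refl _, ?_⟩
      intro _ ρ
      refine ⟨i, by simp, ?_⟩
      intro a _ b hb
      rw [hBi] at hb
      simp at hb
    · push Not at hE
      have hIH : ∀ x ∈ X, (∑ i ∈ I with x ∉ A i, wt #(A i) #((B i).erase x) ≤ 1) ∧
          ((∑ i ∈ I with x ∉ A i, wt #(A i) #((B i).erase x) = 1) → ∀ ρ : α → ℕ,
            ∃ i ∈ I.filter (fun i => x ∉ A i), ∀ a ∈ A i, ∀ b ∈ (B i).erase x, ρ a ≤ ρ b) := by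
        intro x hx
        apply ih (X.erase x) (I.filter (fun i => x ∉ A i)) A (fun i => (B i).erase x)
        · rw [Finset.card_erase_of_mem hx, hX]
          rfl
        · intro i hi
          rw [Finset.mem_filter] at hi
          obtain ⟨h3, h4, h5⟩ := h1 i hi.1
          refine ⟨?_, Finset.erase_subset_erase x h4, ?_⟩
          · intro a ha
            rw [Finset.mem_erase]
            exact ⟨fun h => hi.2 (h ▸ ha), h3 ha⟩
          · exact Finset.disjoint_of_subset_right (Finset.erase_subset _ _) h5
        · intro i hi j hj hij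
          rw [Finset.mem_filter] at hi hj
          intro hd
          apply h2 i hi.1 j hj.1 hij
          rw [Finset.disjoint_left] at hd ⊢
          intro a ha hb
          exact hd ha (Finset.mem_erase.2 ⟨fun h => hi.2 (h ▸ ha), hb⟩)
      have hsum : ∑ x ∈ X, ∑ i ∈ I with x ∉ A i, wt #(A i) #((B i).erase x)
          = ((n + 1 : ℕ) : ℚ) * ∑ i ∈ I, wt #(A i) #(B i) := by
        simp_rw [Finset.sum_filter]
        rw [Finset.sum_comm, Finset.mul_sum]
        apply Finset.sum_congr rfl
        intro i hi
        obtain ⟨h3, h4, h5⟩ := h1 i hi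
        rw [← Finset.sum_filter]
        have hb1 : 1 ≤ #(B i) := by
          rw [Nat.one_le_iff_ne_zero, Ne, Finset.card_eq_zero]
          exact (hE i hi).ne_empty
        have hX2 : X.filter (fun x => x ∉ A i) = B i ∪ (X \ (A i ∪ B i)) := by
          ext x
          simp only [Finset.mem_filter, Finset.mem_union, Finset.mem_sdiff, not_or]
          constructor
          · rintro ⟨hx, hxA⟩
            by_cases hxB : x ∈ B i
            · left; exact hxB
            · right; exact ⟨hx, hxA, hxB⟩
          · rintro (hxB | ⟨hx, hxA, hxB⟩)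
            · exact ⟨h4 hxB, fun hxA => (Finset.disjoint_left.1 h5) hxA hxB⟩
            · exact ⟨hx, hxA⟩
        rw [hX2, Finset.sum_union]
        · have e1 : ∑ x ∈ B i, wt #(A i) #((B i).erase x) = #(B i) * wt #(A i) (#(B i) - 1) := by
            rw [Finset.sum_congr rfl (g := fun _ => wt #(A i) (#(B i) - 1))]
            · rw [Finset.sum_const, nsmul_eq_mul]
            · intro x hx
              rw [Finset.card_erase_of_mem hx]
          have e2 : ∑ x ∈ X \ (A i ∪ B i), wt #(A i) #((B i).erase x)
              = (((n + 1 : ℕ) : ℚ) - #(A i) - #(B i)) * wt #(A i) #(B i) := by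
            rw [Finset.sum_congr rfl (g := fun _ => wt #(A i) #(B i))]
            · rw [Finset.sum_const, nsmul_eq_mul]
              congr 1
              have e3 : #(X \ (A i ∪ B i)) + (#(A i) + #(B i)) = n + 1 := by
                rw [← Finset.card_union_of_disjoint h5, ← hX]
                exact Finset.card_sdiff_add_card_eq_card (Finset.union_subset h3 h4)
              have e4 : ((#(X \ (A i ∪ B i)) : ℕ) : ℚ) + (#(A i) + #(B i)) = ((n + 1 : ℕ) : ℚ) := by
                exact_mod_cast e3
              linarith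
            · intro x hx
              rw [Finset.erase_eq_of_notMem]
              intro hxB
              rw [Finset.mem_sdiff, Finset.mem_union] at hx
              exact hx.2 (Or.inr hxB)
          rw [e1, e2]
          exact wt_step _ _ _ hb1
        · rw [Finset.disjoint_left]
          intro x hxB hx
          rw [Finset.mem_sdiff, Finset.mem_union] at hx
          exact hx.2 (Or.inr hxB)
      have hn : (0 : ℚ) < ((n + 1 : ℕ) : ℚ) := by positivity
      have hle : ∑ x ∈ X, ∑ i ∈ I with x ∉ A i, wt #(A i) #((B i).erase x) ≤ ∑ x ∈ X, (1 : ℚ) :=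
        Finset.sum_le_sum fun x hx => (hIH x hx).1
      have hone : ∑ x ∈ X, (1 : ℚ) = ((n + 1 : ℕ) : ℚ) := by
        rw [Finset.sum_const, hX]; simp
      rw [hsum, hone] at hle
      refine ⟨by
        by_contra hcon
        push Not at hcon
        nlinarith, ?_⟩
      intro heq ρ
      have hall : ∀ x ∈ X, ∑ i ∈ I with x ∉ A i, wt #(A i) #((B i).erase x) = 1 := by
        have := (Finset.sum_eq_sum_iff_of_le (fun x hx => (hIH x hx).1)).1
          (by rw [hsum, hone, heq, mul_one])
        exact this
      have hXne : X.Nonempty := Finset.card_pos.1 (by omega)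
      obtain ⟨x, hx, hmax⟩ := Finset.exists_max_image X ρ hXne
      obtain ⟨i, hi, hi2⟩ := (hIH x hx).2 (hall x hx) ρ
      rw [Finset.mem_filter] at hi
      refine ⟨i, hi.1, ?_⟩
      intro a ha b hb
      by_cases hbx : b = x
      · subst hbx
        exact hmax a ((h1 i hi.1).1 ha)
      · exact hi2 a ha b (Finset.mem_erase.2 ⟨hbx, hb⟩)

theorem bollobas {α ι : Type*} [DecidableEq α] (I : Finset ι) (A B : ι → Finset α)
    (h1 : ∀ i ∈ I, Disjoint (A i) (B i))
    (h2 : ∀ i ∈ I, ∀ j ∈ I, i ≠ j → ¬ Disjoint (A i) (B j)) :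
    (∑ i ∈ I, wt #(A i) #(B i) ≤ 1) ∧
      ((∑ i ∈ I, wt #(A i) #(B i) = 1) →
        ∀ ρ : α → ℕ, ∃ i ∈ I, ∀ a ∈ A i, ∀ b ∈ B i, ρ a ≤ ρ b) := by
  classical
  apply bollobas_aux _ (I.biUnion fun i => A i ∪ B i) I A B rfl ?_ h2
  intro i hi
  refine ⟨?_, ?_, h1 i hi⟩
  · exact (Finset.subset_union_left).trans (Finset.subset_biUnion_of_mem (fun i => A i ∪ B i) hi)
  · exact (Finset.subset_union_right).trans (Finset.subset_biUnion_of_mem (fun i => A i ∪ B i) hi)

/-- central bound of the binomial coefficients, with equality case -/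
theorem choose_lt_central {a b r : ℕ} (ha : a ≤ r) (hb : b ≤ r) (hab : a + b < 2 * r) :
    (a + b).choose a < (2 * r).choose r := by
  -- monotone in both arguments
  have mono : ∀ a b : ℕ, (a + b).choose a ≤ (a + 1 + b).choose (a + 1) := by
    intro a b
    have : a + 1 + b = (a + b) + 1 := by omega
    rw [this, Nat.choose_succ_succ']
    exact Nat.le_add_right _ _
  have monoL : ∀ a a' b : ℕ, a ≤ a' → (a + b).choose a ≤ (a' + b).choose a' := by
    intro a a' b h
    induction h with
    | refl => exact le_refl _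
    | step _ ih => exact ih.trans (mono _ _)
  have symm : ∀ a b : ℕ, (a + b).choose a = (b + a).choose b := by
    intro a b
    rw [Nat.choose_symm_add, add_comm]
  have monoR : ∀ a b b' : ℕ, b ≤ b' → (a + b).choose a ≤ (a + b').choose a := by
    intro a b b' h
    rw [symm a b, symm a b']
    exact monoL _ _ _ h
  have strictL : ∀ a b : ℕ, 1 ≤ b → (a + b).choose a < (a + 1 + b).choose (a + 1) := by
    intro a b hb
    have : a + 1 + b = (a + b) + 1 := by omega
    rw [this, Nat.choose_succ_succ']
    have : 0 < (a + b).choose (a + 1) := Nat.choose_pos (by omega)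
    omega
  rw [two_mul]
  by_cases h : a < r
  · have hr : 1 ≤ r := by omega
    calc (a + b).choose a ≤ (a + r).choose a := monoR _ _ _ hb
      _ < (a + 1 + r).choose (a + 1) := strictL a r hr
      _ ≤ (r + r).choose r := monoL _ _ _ h
  · have ha' : a = r := by omega
    subst ha'
    have hb' : b < a := by omega
    calc (a + b).choose a = (b + a).choose b := symm _ _
      _ < (b + 1 + a).choose (b + 1) := strictL b a (by omega)
      _ ≤ (a + a).choose a := monoL _ _ _ hb'

theorem choose_le_central {a b r : ℕ} (ha : a ≤ r) (hb : b ≤ r) :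
    (a + b).choose a ≤ (2 * r).choose r := by
  by_cases hab : a + b < 2 * r
  · exact (choose_lt_central ha hb hab).le
  · have h1 : a = r := by omega
    have h2 : b = r := by omega
    rw [h1, h2, two_mul]

/-- the bound on the number of pairs with sizes at most `r` -/
theorem card_le_central {α ι : Type*} [DecidableEq α] (r : ℕ) (I : Finset ι) (A B : ι → Finset α)
    (hA : ∀ i ∈ I, #(A i) ≤ r) (hB : ∀ i ∈ I, #(B i) ≤ r)
    (h1 : ∀ i ∈ I, Disjoint (A i) (B i))
    (h2 : ∀ i ∈ I, ∀ j ∈ I, i ≠ j → ¬ Disjoint (A i) (B j)) :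
    #I ≤ (2 * r).choose r := by
  have h := (bollobas I A B h1 h2).1
  have hpos : (0 : ℚ) < ((2 * r).choose r : ℕ) := by
    exact_mod_cast Nat.choose_pos (by omega)
  have h3 : ∑ i ∈ I, (1 : ℚ) / ((2 * r).choose r : ℕ) ≤ ∑ i ∈ I, wt #(A i) #(B i) := by
    apply Finset.sum_le_sum
    intro i hi
    unfold wt
    apply one_div_le_one_div_of_le
    · exact_mod_cast Nat.choose_pos (Nat.le_add_right _ _)
    · exact_mod_cast choose_le_central (hA i hi) (hB i hi)
  rw [Finset.sum_const, nsmul_eq_mul, mul_one_div] at h3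
  have h4 : (#I : ℚ) / ((2 * r).choose r : ℕ) ≤ 1 := h3.trans h
  rw [div_le_one hpos] at h4
  exact_mod_cast h4

/-- in the extremal case all sizes are `r` and every weight has a pair below it -/
theorem extremal_basic {α ι : Type*} [DecidableEq α] (r : ℕ) (I : Finset ι) (A B : ι → Finset α)
    (hA : ∀ i ∈ I, #(A i) ≤ r) (hB : ∀ i ∈ I, #(B i) ≤ r)
    (h1 : ∀ i ∈ I, Disjoint (A i) (B i))
    (h2 : ∀ i ∈ I, ∀ j ∈ I, i ≠ j → ¬ Disjoint (A i) (B j))
    (hI : #I = (2 * r).choose r) :
    (∀ i ∈ I, #(A i) = r ∧ #(B i) = r) ∧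
      ∀ ρ : α → ℕ, ∃ i ∈ I, ∀ a ∈ A i, ∀ b ∈ B i, ρ a ≤ ρ b := by
  have h := (bollobas I A B h1 h2)
  have hpos : (0 : ℚ) < ((2 * r).choose r : ℕ) := by
    exact_mod_cast Nat.choose_pos (by omega)
  have hle : ∀ i ∈ I, (1 : ℚ) / ((2 * r).choose r : ℕ) ≤ wt #(A i) #(B i) := by
    intro i hi
    unfold wt
    apply one_div_le_one_div_of_le
    · exact_mod_cast Nat.choose_pos (Nat.le_add_right _ _)
    · exact_mod_cast choose_le_central (hA i hi) (hB i hi)
  have hconst : ∑ i ∈ I, (1 : ℚ) / ((2 * r).choose r : ℕ) = 1 := by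
    rw [Finset.sum_const, nsmul_eq_mul, hI, mul_one_div, div_self hpos.ne']
  have hsum : ∑ i ∈ I, wt #(A i) #(B i) = 1 := by
    apply le_antisymm h.1
    rw [← hconst]
    exact Finset.sum_le_sum hle
  refine ⟨?_, h.2 hsum⟩
  have heq := (Finset.sum_eq_sum_iff_of_le hle).1 (by rw [hconst, hsum])
  intro i hi
  have h5 := heq i hi
  by_contra hcon
  have h6 : #(A i) + #(B i) < 2 * r := by
    have := hA i hi
    have := hB i hi
    by_contra h7
    apply hcon
    constructor <;> omega
  have h7 := choose_lt_central (hA i hi) (hB i hi) h6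
  unfold wt at h5
  have h8 : (0 : ℚ) < ((#(A i) + #(B i)).choose #(A i) : ℕ) := by
    exact_mod_cast Nat.choose_pos (Nat.le_add_right _ _)
  have h9 : (1 : ℚ) / ((2 * r).choose r : ℕ) < 1 / ((#(A i) + #(B i)).choose #(A i) : ℕ) := by
    apply one_div_lt_one_div_of_lt h8
    exact_mod_cast h7
  rw [h5] at h9
  exact lt_irrefl _ h9

/-- exchange property of extremal families -/
theorem exchange {α ι : Type*} [DecidableEq α] (r : ℕ) (I : Finset ι) (A B : ι → Finset α)
    (hs : ∀ i ∈ I, #(A i) = r ∧ #(B i) = r)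
    (h1 : ∀ i ∈ I, Disjoint (A i) (B i))
    (h2 : ∀ i ∈ I, ∀ j ∈ I, i ≠ j → ¬ Disjoint (A i) (B j))
    (hw : ∀ ρ : α → ℕ, ∃ i ∈ I, ∀ a ∈ A i, ∀ b ∈ B i, ρ a ≤ ρ b)
    {i : ι} (hi : i ∈ I) {a b : α} (ha : a ∈ A i) (hb : b ∈ B i) :
    ∃ j ∈ I, A j = insert b ((A i).erase a) ∧ B j = insert a ((B i).erase b) := by
  classical
  have hab : a ≠ b := by
    rintro rfl
    exact (Finset.disjoint_left.1 (h1 i hi)) ha hb
  have hbA : b ∉ A i := fun h => (Finset.disjoint_left.1 (h1 i hi)) h hb
  have haB : a ∉ B i := fun h => (Finset.disjoint_left.1 (h1 i hi)) ha h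
  have hr : 1 ≤ r := by
    rw [← (hs i hi).1]
    exact Finset.card_pos.2 ⟨a, ha⟩
  obtain ⟨j, hj, hj1⟩ := hw (fun x => if x ∈ (A i).erase a then 0 else if x = b then 1 else
    if x = a then 2 else if x ∈ B i then 3 else 4)
  have hAj : A j = insert b ((A i).erase a) := by
    apply Finset.eq_of_subset_of_card_le
    · intro x hx
      by_contra hx2
      rw [Finset.mem_insert, not_or] at hx2
      have hBe : ∀ y ∈ B j, y ∉ (A i).erase a ∧ y ≠ b := by
        intro y hy
        have h3 := hj1 x hx y hy
        rw [if_neg hx2.2, if_neg hx2.1] at h3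
        constructor
        · intro h4
          rw [if_pos h4] at h3
          split_ifs at h3 <;> omega
        · intro h4
          have h5 : y ∉ (A i).erase a := by
            rw [h4]
            intro h6
            exact hbA (Finset.mem_of_mem_erase h6)
          rw [if_neg h5, if_pos h4] at h3
          split_ifs at h3 <;> omega
      have hdis : Disjoint (A i) (B j) := by
        rw [Finset.disjoint_left]
        intro y hyA hyB
        have h4 := (hBe y hyB).1
        have hya : y = a := by
          by_contra h5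
          exact h4 (Finset.mem_erase.2 ⟨h5, hyA⟩)
        have h3 := hj1 x hx y hyB
        rw [if_neg hx2.2, if_neg hx2.1, if_neg h4, if_neg (hBe y hyB).2, if_pos hya] at h3
        have hxa : x = a := by
          by_contra h6
          rw [if_neg h6] at h3
          split_ifs at h3 <;> omega
        rw [hxa] at hx
        rw [hya] at hyB
        exact (Finset.disjoint_left.1 (h1 j hj)) hx hyB
      have hij : i = j := by
        by_contra hij
        exact h2 i hi j hj hij hdis
      rw [← hij] at hBe
      exact (hBe b hb).2 rfl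
    · rw [(hs j hj).1, Finset.card_insert_of_notMem (fun h => hbA (Finset.mem_of_mem_erase h)),
        Finset.card_erase_of_mem ha, (hs i hi).1]
      omega
  obtain ⟨l, hl, hl1⟩ := hw (fun x => if x = a then 3 else if x ∈ (B i).erase b then 4 else
    if x = b then 2 else if x ∈ A i then 1 else 0)
  have hBl : B l = insert a ((B i).erase b) := by
    apply Finset.eq_of_subset_of_card_le
    · intro y hy
      by_contra hy2
      rw [Finset.mem_insert, not_or] at hy2
      have hAe : ∀ x ∈ A l, x ≠ a ∧ x ∉ (B i).erase b := by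
        intro x hx
        have h3 := hl1 x hx y hy
        rw [if_neg hy2.1, if_neg hy2.2] at h3
        constructor
        · intro h4
          rw [if_pos h4] at h3
          split_ifs at h3 <;> omega
        · intro h4
          have h5 : x ≠ a := by
            rintro rfl
            exact haB (Finset.mem_of_mem_erase h4)
          rw [if_neg h5, if_pos h4] at h3
          split_ifs at h3 <;> omega
      have hdis : Disjoint (A l) (B i) := by
        rw [Finset.disjoint_left]
        intro x hxA hxB
        have h4 := (hAe x hxA).2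
        have hxb : x = b := by
          by_contra h5
          exact h4 (Finset.mem_erase.2 ⟨h5, hxB⟩)
        have h3 := hl1 x hxA y hy
        rw [if_neg hy2.1, if_neg hy2.2, if_neg (hAe x hxA).1, if_neg h4, if_pos hxb] at h3
        have hyb : y = b := by
          by_contra h6
          rw [if_neg h6] at h3
          split_ifs at h3 <;> omega
        rw [hyb] at hy
        rw [hxb] at hxA
        exact (Finset.disjoint_left.1 (h1 l hl)) hxA hy
      have hij : l = i := by
        by_contra hij
        exact h2 l hl i hi hij hdis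
      rw [hij] at hAe
      exact (hAe a ha).1 rfl
    · rw [(hs l hl).2, Finset.card_insert_of_notMem (fun h => haB (Finset.mem_of_mem_erase h)),
        Finset.card_erase_of_mem hb, (hs i hi).2]
      omega
  have hjl : j = l := by
    by_contra hjl
    apply h2 j hj l hl hjl
    rw [hAj, hBl, Finset.disjoint_left]
    intro x hx hx2
    rw [Finset.mem_insert, Finset.mem_erase] at hx hx2
    rcases hx with hx | ⟨hx3, hx4⟩
    · rcases hx2 with hx5 | ⟨hx5, _⟩
      · exact hab (hx5.symm.trans hx)
      · exact hx5 hx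
    · rcases hx2 with hx5 | ⟨_, hx5⟩
      · exact hx3 hx5
      · exact (Finset.disjoint_left.1 (h1 i hi)) hx4 hx5
  refine ⟨j, hj, hAj, ?_⟩
  rw [hjl]
  exact hBl

theorem extremal_structure {α ι : Type*} [DecidableEq α] (r : ℕ) (I : Finset ι)
    (A B : ι → Finset α)
    (hA : ∀ i ∈ I, #(A i) ≤ r) (hB : ∀ i ∈ I, #(B i) ≤ r)
    (h1 : ∀ i ∈ I, Disjoint (A i) (B i))
    (h2 : ∀ i ∈ I, ∀ j ∈ I, i ≠ j → ¬ Disjoint (A i) (B j))
    (hI : #I = (2 * r).choose r) :
    ∃ Y : Finset α, #Y = 2 * r ∧
      (∀ X ⊆ Y, #X = r → ∃ i ∈ I, A i = X ∧ B i = Y \ X) ∧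
      (∀ i ∈ I, A i ⊆ Y ∧ #(A i) = r ∧ B i = Y \ A i) := by
  classical
  obtain ⟨hs, hw⟩ := extremal_basic r I A B hA hB h1 h2 hI
  have hIne : I.Nonempty := by
    rw [← Finset.card_pos, hI]
    exact Nat.choose_pos (by omega)
  obtain ⟨i₀, hi₀⟩ := hIne
  set Y := A i₀ ∪ B i₀ with hY
  have hYcard : #Y = 2 * r := by
    rw [hY, Finset.card_union_of_disjoint (h1 i₀ hi₀), (hs i₀ hi₀).1, (hs i₀ hi₀).2]
    omega
  have key : ∀ n : ℕ, ∀ X ⊆ Y, #X = r → ∀ i ∈ I, A i ∪ B i = Y → #(A i \ X) = n →
      ∃ j ∈ I, A j = X ∧ B j = Y \ X := by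
    intro n
    induction n with
    | zero =>
      intro X hX hXc i hi hiY hn
      have h3 : A i ⊆ X := by
        rw [Finset.card_eq_zero, Finset.sdiff_eq_empty_iff_subset] at hn
        exact hn
      have h4 : A i = X := Finset.eq_of_subset_of_card_le h3 (by rw [hXc, (hs i hi).1])
      refine ⟨i, hi, h4, ?_⟩
      rw [← h4, ← hiY, Finset.union_sdiff_cancel_left (h1 i hi)]
    | succ n ih =>
      intro X hX hXc i hi hiY hn
      have h3 : (A i \ X).Nonempty := Finset.card_pos.1 (by omega)
      obtain ⟨a, ha⟩ := h3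
      rw [Finset.mem_sdiff] at ha
      have h4 : (X \ A i).Nonempty := by
        rw [← Finset.card_pos]
        have e1 := Finset.card_sdiff_add_card_inter X (A i)
        have e2 := Finset.card_sdiff_add_card_inter (A i) X
        rw [Finset.inter_comm] at e2
        rw [(hs i hi).1] at e2
        omega
      obtain ⟨b, hb⟩ := h4
      rw [Finset.mem_sdiff] at hb
      have hbB : b ∈ B i := by
        have : b ∈ A i ∪ B i := by rw [hiY]; exact hX hb.1
        rw [Finset.mem_union] at this
        exact this.resolve_left hb.2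
      have hbA : b ∉ A i := hb.2
      have haB : a ∉ B i := fun h => (Finset.disjoint_left.1 (h1 i hi)) ha.1 h
      obtain ⟨j, hj, hjA, hjB⟩ := exchange r I A B hs h1 h2 hw hi ha.1 hbB
      apply ih X hX hXc j hj
      · rw [hjA, hjB, ← hiY]
        ext x
        simp only [Finset.mem_union, Finset.mem_insert, Finset.mem_erase]
        constructor
        · rintro ((rfl | h) | (rfl | h))
          · exact Or.inr hbB
          · exact Or.inl h.2
          · exact Or.inl ha.1
          · exact Or.inr h.2
        · rintro (h | h)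
          · by_cases hx : x = a
            · right; left; exact hx
            · left; right; exact ⟨hx, h⟩
          · by_cases hx : x = b
            · left; left; exact hx
            · right; right; exact ⟨hx, h⟩
      · have e3 : A j \ X = (A i \ X).erase a := by
          rw [hjA]
          ext x
          simp only [Finset.mem_sdiff, Finset.mem_insert, Finset.mem_erase]
          constructor
          · rintro ⟨rfl | h, hx⟩
            · exact absurd hb.1 hx
            · exact ⟨h.1, h.2, hx⟩
          · rintro ⟨h3, h4, h5⟩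
            exact ⟨Or.inr ⟨h3, h4⟩, h5⟩
        rw [e3, Finset.card_erase_of_mem (Finset.mem_sdiff.2 ha), hn]
        rfl
  have hfull : ∀ X ⊆ Y, #X = r → ∃ i ∈ I, A i = X ∧ B i = Y \ X := by
    intro X hX hXc
    exact key _ X hX hXc i₀ hi₀ rfl rfl
  refine ⟨Y, hYcard, hfull, ?_⟩
  -- counting
  haveI : Nonempty ι := ⟨i₀⟩
  choose! g hg using hfull
  have hginj : Set.InjOn g (Y.powersetCard r : Set (Finset α)) := by
    intro X hX X' hX' h
    rw [Finset.mem_coe, Finset.mem_powersetCard] at hX hX'
    rw [← (hg X hX.1 hX.2).2.1, ← (hg X' hX'.1 hX'.2).2.1, h]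
  have himg : (Y.powersetCard r).image g = I := by
    apply Finset.eq_of_subset_of_card_le
    · intro i hi
      rw [Finset.mem_image] at hi
      obtain ⟨X, hX, rfl⟩ := hi
      rw [Finset.mem_powersetCard] at hX
      exact (hg X hX.1 hX.2).1
    · rw [Finset.card_image_of_injOn hginj, Finset.card_powersetCard, hYcard, hI]
  intro i hi
  rw [← himg, Finset.mem_image] at hi
  obtain ⟨X, hX, rfl⟩ := hi
  rw [Finset.mem_powersetCard] at hX
  obtain ⟨h3, h4, h5⟩ := hg X hX.1 hX.2
  rw [h4, h5]
  exact ⟨hX.1, hX.2, rfl⟩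

end AlmostInt
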