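import Mathlib

open Finset

namespace AlmostInt

/-- the product of all differences between two finite sets of rationals -/
def lam (K T : Finset ℚ) : ℚ := ∏ x ∈ K, ∏ y ∈ T, (x - y)

theorem lam_eq_zero_iff (K T : Finset ℚ) : lam K T = 0 ↔ ¬ Disjoint K T := by
  unfold lam
  rw [Finset.prod_eq_zero_iff, Finset.not_disjoint_iff]
  constructor
  · rintro ⟨x, hx, h⟩
    rw [Finset.prod_eq_zero_iff] at h
    obtain ⟨y, hy, h⟩ := h
    have : x = y := by linarith
    exact ⟨x, hx, this ▸ hy⟩
  · rintro ⟨x, hx, hx'⟩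
    refine ⟨x, hx, ?_⟩
    rw [Finset.prod_eq_zero_iff]
    exact ⟨x, hx', by ring⟩

theorem lam_swap (K T : Finset ℚ) : lam K T = (-1) ^ (#K * #T) * lam T K := by
  unfold lam
  rw [Finset.prod_comm]
  have h : ∀ y ∈ T, ∏ x ∈ K, (x - y) = (-1) ^ #K * ∏ x ∈ K, (y - x) := by
    intro y _
    rw [← Finset.prod_const, ← Finset.prod_mul_distrib]
    apply Finset.prod_congr rfl
    intro x _
    ring
  rw [Finset.prod_congr rfl h, Finset.prod_mul_distrib, Finset.prod_const, ← pow_mul]

theorem lam_insert (K T : Finset ℚ) (y : ℚ) (hy : y ∉ T) :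
    lam K (insert y T) = lam K T * ∏ x ∈ K, (x - y) := by
  unfold lam
  rw [← Finset.prod_mul_distrib]
  apply Finset.prod_congr rfl
  intro x _
  rw [Finset.prod_insert hy, mul_comm]

/-- the function attached to `T`, on the sets with `r` elements -/
def phi (r : ℕ) (T : Finset ℚ) : Finset ℚ → ℚ := fun K => if #K = r then lam K T else 0

theorem phi_mem_span (r m : ℕ) (Y : Finset ℚ) (hY : #Y = r + m) (n : ℕ) :
    ∀ T : Finset ℚ, #T = m → #(T \ Y) = n →
      phi r T ∈ Submodule.span ℚ (phi r '' (Y.powersetCard m : Set (Finset ℚ))) := by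
  classical
  induction n with
  | zero =>
    intro T hT hn
    rw [Finset.card_eq_zero, Finset.sdiff_eq_empty_iff_subset] at hn
    apply Submodule.subset_span
    refine ⟨T, ?_, rfl⟩
    rw [Finset.mem_coe, Finset.mem_powersetCard]
    exact ⟨hn, hT⟩
  | succ n ih =>
    intro T hT hn
    obtain ⟨y, hy⟩ : (T \ Y).Nonempty := Finset.card_pos.1 (by omega)
    rw [Finset.mem_sdiff] at hy
    set T₀ := T.erase y with hT₀
    have hT₀c : #T₀ + 1 = m := by
      rw [hT₀, Finset.card_erase_of_mem hy.1, hT]
      have : 0 < #T := Finset.card_pos.2 ⟨y, hy.1⟩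
      omega
    have hyT₀ : y ∉ T₀ := Finset.notMem_erase y T
    have hTins : T = insert y T₀ := (Finset.insert_erase hy.1).symm
    have hZ : r + 1 ≤ #(Y \ T₀) := by
      have := Finset.le_card_sdiff T₀ Y
      omega
    obtain ⟨Z, hZsub, hZc⟩ := Finset.exists_subset_card_eq hZ
    have hinj : Set.InjOn (id : ℚ → ℚ) (Z : Set ℚ) := Function.injective_id.injOn
    -- interpolation
    have hlag : ∀ K : Finset ℚ, #K = r → ∏ x ∈ K, (x - y)
        = ∑ z ∈ Z, (Lagrange.basis Z id z).eval y * ∏ x ∈ K, (x - z) := by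
      intro K hK
      have hdeg : (∏ x ∈ K, (Polynomial.C x - Polynomial.X : Polynomial ℚ)).degree < #Z := by
        rw [Polynomial.degree_prod]
        have : ∀ x ∈ K, (Polynomial.C x - Polynomial.X : Polynomial ℚ).degree = 1 := by
          intro x _
          rw [← Polynomial.degree_neg, neg_sub]
          exact Polynomial.degree_X_sub_C x
        rw [Finset.sum_congr rfl this, Finset.sum_const, hK, hZc, nsmul_eq_mul, mul_one]
        exact_mod_cast Nat.lt_succ_self r
      have h := Lagrange.eq_interpolate hinj hdeg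
      have h2 := congrArg (Polynomial.eval y) h
      rw [Lagrange.interpolate_apply, Polynomial.eval_finsetSum] at h2
      rw [Polynomial.eval_prod] at h2
      simp only [Polynomial.eval_sub, Polynomial.eval_C, Polynomial.eval_X, Polynomial.eval_mul,
        id, Polynomial.eval_prod] at h2
      rw [h2]
      apply Finset.sum_congr rfl
      intro z _
      rw [mul_comm]
    have hphi : phi r T = ∑ z ∈ Z, (Lagrange.basis Z id z).eval y • phi r (insert z T₀) := by
      funext K
      rw [Finset.sum_apply]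
      simp only [Pi.smul_apply, smul_eq_mul, phi]
      by_cases hK : #K = r
      · simp only [hK, if_true]
        rw [hTins, lam_insert K T₀ y hyT₀, hlag K hK, Finset.mul_sum]
        apply Finset.sum_congr rfl
        intro z hz
        have hzT₀ : z ∉ T₀ := (Finset.mem_sdiff.1 (hZsub hz)).2
        rw [lam_insert K T₀ z hzT₀]
        ring
      · simp [hK]
    rw [hphi]
    apply Submodule.sum_mem
    intro z hz
    apply Submodule.smul_mem
    have hz2 := Finset.mem_sdiff.1 (hZsub hz)
    apply ih
    · rw [Finset.card_insert_of_notMem hz2.2, hT₀c]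
    · have : insert z T₀ \ Y = (T \ Y).erase y := by
        ext x
        simp only [Finset.mem_sdiff, Finset.mem_insert, Finset.mem_erase, hT₀]
        constructor
        · rintro ⟨rfl | h, hx⟩
          · exact absurd hz2.1 hx
          · exact ⟨h.1, h.2, hx⟩
        · rintro ⟨h3, h4, h5⟩
          exact ⟨Or.inr ⟨h3, h4⟩, h5⟩
      rw [this, Finset.card_erase_of_mem (Finset.mem_sdiff.2 hy), hn]
      rfl

theorem phi_mem_span' (r m : ℕ) (Y : Finset ℚ) (hY : #Y = r + m) (T : Finset ℚ) (hT : #T = m) :
    phi r T ∈ Submodule.span ℚ (phi r '' (Y.powersetCard m : Set (Finset ℚ))) :=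
  phi_mem_span r m Y hY _ T hT rfl

theorem exists_finset_card (n : ℕ) : ∃ Y : Finset ℚ, #Y = n :=
  ⟨(Finset.range n).image (fun m : ℕ => (m : ℚ)), by
    rw [Finset.card_image_of_injective _ Nat.cast_injective, Finset.card_range]⟩

/-- the space of the functions of sets with `r` elements -/
def W (r : ℕ) : Submodule ℚ (Finset ℚ → ℚ) := Submodule.span ℚ (phi r '' {T | #T = r})

theorem W_fin (r : ℕ) : FiniteDimensional ℚ (W r) ∧
    Module.finrank ℚ (W r) ≤ (2 * r).choose r := by
  classical
  obtain ⟨Y, hY⟩ := exists_finset_card (2 * r)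
  have h : W r = Submodule.span ℚ (((Y.powersetCard r).image (phi r) : Finset _) : Set (Finset ℚ → ℚ)) := by
    apply le_antisymm
    · unfold W
      rw [Submodule.span_le]
      rintro _ ⟨T, hT, rfl⟩
      rw [Finset.coe_image]
      exact phi_mem_span' r r Y (by omega) T hT
    · unfold W
      apply Submodule.span_mono
      rw [Finset.coe_image]
      apply Set.image_mono
      intro T hT
      rw [Finset.mem_coe, Finset.mem_powersetCard] at hT
      exact hT.2
  rw [h]
  refine ⟨FiniteDimensional.span_finset _ _, ?_⟩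
  refine (finrank_span_finset_le_card _).trans ?_
  refine Finset.card_image_le.trans ?_
  rw [Finset.card_powersetCard, hY]

theorem phi_apply (r : ℕ) (T K : Finset ℚ) (hK : #K = r) : phi r T K = lam K T := by
  simp [phi, hK]

/-- first inequality -/
theorem core_one (r : ℕ) {ι J : Type*} [Fintype ι] [Fintype J]
    (A B : ι → Finset ℚ) (C : J → Finset ℚ)
    (hA : ∀ i, #(A i) = r) (hB : ∀ i, #(B i) = r) (hC : ∀ i, #(C i) = r)
    (hAB : ∀ i j, Disjoint (A i) (B j) ↔ i = j)
    (hCA : ∀ i j, ¬ Disjoint (C i) (A j)) (hCB : ∀ i j, ¬ Disjoint (C i) (B j))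
    (hCC : ∀ i j, ¬ Disjoint (C i) (C j))
    (hli : LinearIndependent ℚ (fun j => phi r (C j))) :
    Fintype.card ι + 2 * Fintype.card J ≤ (2 * r).choose r := by
  classical
  obtain ⟨hfin, hrank⟩ := W_fin r
  set pts : ι ⊕ J → Finset ℚ := Sum.elim B C with hpts
  have hptsc : ∀ s, #(pts s) = r := by
    rintro (i | j)
    · exact hB i
    · exact hC j
  set Ψ : W r →ₗ[ℚ] (ι ⊕ J → ℚ) := (LinearMap.funLeft ℚ ℚ pts).comp (W r).subtype with hΨ
  have hΨapp : ∀ (w : W r) s, Ψ w s = (w : Finset ℚ → ℚ) (pts s) := by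
    intro w s
    rfl
  have hmemW : ∀ T : Finset ℚ, #T = r → phi r T ∈ W r := fun T hT =>
    Submodule.subset_span ⟨T, hT, rfl⟩
  -- surjectivity
  have hsurj : LinearMap.range Ψ = ⊤ := by
    by_contra hne
    obtain ⟨f, hf0, hfle⟩ := Submodule.exists_le_ker_of_lt_top _ (lt_top_iff_ne_top.2 hne)
    have hfapp : ∀ v : ι ⊕ J → ℚ, f v = ∑ s, v s * f (Pi.single s 1) := by
      intro v
      conv_lhs => rw [LinearMap.pi_apply_eq_sum_univ f v]
      apply Finset.sum_congr rfl
      intro s _
      rw [smul_eq_mul]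
      congr 2
      funext t
      simp [Pi.single_apply, eq_comm]
    have hzero : ∀ T : Finset ℚ, #T = r → ∑ s, lam (pts s) T * f (Pi.single s 1) = 0 := by
      intro T hT
      have h1 : f (Ψ ⟨phi r T, hmemW T hT⟩) = 0 := by
        apply hfle
        exact ⟨_, rfl⟩
      rw [hfapp] at h1
      rw [← h1]
      apply Finset.sum_congr rfl
      intro s _
      rw [hΨapp]
      change lam (pts s) T * _ = phi r T (pts s) * _
      rw [phi_apply r T _ (hptsc s)]
    have hinl : ∀ i : ι, f (Pi.single (Sum.inl i) 1) = 0 := by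
      intro i
      have h1 := hzero (A i) (hA i)
      rw [Fintype.sum_sum_type] at h1
      have h2 : ∑ j : J, lam (pts (Sum.inr j)) (A i) * f (Pi.single (Sum.inr j) 1) = 0 := by
        apply Finset.sum_eq_zero
        intro j _
        have : lam (pts (Sum.inr j)) (A i) = 0 := (lam_eq_zero_iff _ _).2 (hCA j i)
        rw [this, zero_mul]
      rw [h2, add_zero, Finset.sum_eq_single i] at h1
      · rcases mul_eq_zero.1 h1 with h3 | h3
        · exfalso
          rw [lam_eq_zero_iff] at h3
          apply h3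
          exact ((hAB i i).2 rfl).symm
        · exact h3
      · intro l _ hl
        have : lam (pts (Sum.inl l)) (A i) = 0 := by
          rw [lam_eq_zero_iff]
          intro hd
          exact hl ((hAB i l).1 hd.symm).symm
        rw [this, zero_mul]
      · intro h; exact absurd (Finset.mem_univ _) h
    have hinr : ∀ j : J, f (Pi.single (Sum.inr j) 1) = 0 := by
      rw [Fintype.linearIndependent_iff] at hli
      apply hli (fun j => f (Pi.single (Sum.inr j) 1))
      funext K
      rw [Finset.sum_apply]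
      simp only [Pi.smul_apply, smul_eq_mul, Pi.zero_apply]
      by_cases hK : #K = r
      · have h1 := hzero K hK
        rw [Fintype.sum_sum_type] at h1
        simp only [hinl, mul_zero, Finset.sum_const_zero, zero_add] at h1
        have h2 : ∀ j : J, f (Pi.single (Sum.inr j) 1) * phi r (C j) K
            = (-1) ^ (r * r) * (lam (pts (Sum.inr j)) K * f (Pi.single (Sum.inr j) 1)) := by
          intro j
          rw [phi_apply r _ K hK, lam_swap, hK, hC j]
          have : pts (Sum.inr j) = C j := rfl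
          rw [this]
          ring
        rw [Finset.sum_congr rfl (fun j _ => h2 j), ← Finset.mul_sum, h1, mul_zero]
      · apply Finset.sum_eq_zero
        intro j _
        simp [phi, hK]
    apply hf0
    apply LinearMap.ext
    intro v
    rw [hfapp]
    simp only [LinearMap.zero_apply]
    apply Finset.sum_eq_zero
    rintro (i | j) _
    · rw [hinl, mul_zero]
    · rw [hinr, mul_zero]
  -- kernel
  have hker : Fintype.card J ≤ Module.finrank ℚ (LinearMap.ker Ψ) := by
    have hmemker : ∀ j : J, (⟨phi r (C j), hmemW _ (hC j)⟩ : W r) ∈ LinearMap.ker Ψ := by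
      intro j
      rw [LinearMap.mem_ker]
      funext s
      rw [hΨapp]
      change phi r (C j) (pts s) = 0
      rw [phi_apply r _ _ (hptsc s), lam_eq_zero_iff]
      rcases s with i | l
      · intro h
        exact hCB j i h.symm
      · exact hCC l j
    have hli2 : LinearIndependent ℚ
        (fun j : J => (⟨⟨phi r (C j), hmemW _ (hC j)⟩, hmemker j⟩ : LinearMap.ker Ψ)) := by
      apply LinearIndependent.of_comp ((W r).subtype.comp (LinearMap.ker Ψ).subtype)
      exact hli
    exact hli2.fintype_card_le_finrank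
  have hrn := LinearMap.finrank_range_add_finrank_ker Ψ
  rw [hsurj, finrank_top, Module.finrank_fintype_fun_eq_card, Fintype.card_sum] at hrn
  omega

/-- second inequality -/
theorem core_two (r : ℕ) {κ J : Type*} [Fintype κ] [Fintype J]
    (C D : κ → Finset ℚ) (a : J → κ)
    (hC : ∀ i, #(C i) = r) (hD : ∀ i, #(D i) = r + 1)
    (hCD : ∀ i j, Disjoint (C i) (D j) ↔ i = j)
    (hspan : ∀ i, phi r (C i) ∈ Submodule.span ℚ (Set.range (fun j => phi r (C (a j))))) :
    (r + 1) * Fintype.card κ ≤ (2 * r + 1) * Fintype.card J := by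
  classical
  obtain ⟨Y, hY⟩ := exists_finset_card (2 * r + 1)
  -- coefficients
  have hcoef : ∀ i, ∃ c : J → ℚ, ∑ j, c j • phi r (C (a j)) = phi r (C i) := by
    intro i
    exact (Submodule.mem_span_range_iff_exists_fun ℚ).1 (hspan i)
  choose c hc using hcoef
  have hcl : ∀ i (K : Finset ℚ), #K = r → lam (C i) K = ∑ j, c i j * lam (C (a j)) K := by
    intro i K hK
    have h1 := congrFun (hc i) K
    rw [Finset.sum_apply] at h1
    simp only [Pi.smul_apply, smul_eq_mul, phi_apply r _ K hK] at h1
    rw [lam_swap, hK, hC i, ← h1, Finset.mul_sum]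
    apply Finset.sum_congr rfl
    intro j _
    rw [lam_swap (C (a j)) K, hK, hC]
    ring
  set T := {T : Finset ℚ // T ∈ Y.powersetCard (r + 1)} with hT
  let v : T → (κ → ℚ) := fun t i => lam (C i) t.1
  have hvspan : Submodule.span ℚ (Set.range v) = ⊤ := by
    have h1 : ∀ i, (fun l => lam (C l) (D i)) ∈ Submodule.span ℚ (Set.range v) := by
      intro i
      have h2 := phi_mem_span' r (r + 1) Y (by omega) (D i) (hD i)
      have h3 := Submodule.mem_map_of_mem (f := LinearMap.funLeft ℚ ℚ C) h2
      rw [Submodule.map_span] at h3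
      have h4 : (LinearMap.funLeft ℚ ℚ C) (phi r (D i)) = fun l => lam (C l) (D i) := by
        funext l
        rw [LinearMap.funLeft_apply, phi_apply r _ _ (hC l)]
      rw [h4] at h3
      refine Submodule.span_mono ?_ h3
      rintro _ ⟨_, ⟨S, hS, rfl⟩, rfl⟩
      refine ⟨⟨S, hS⟩, ?_⟩
      funext l
      rw [LinearMap.funLeft_apply, phi_apply r _ _ (hC l)]
    rw [eq_top_iff]
    intro w _
    have h5 : w = ∑ i, (w i / lam (C i) (D i)) • (fun l => lam (C l) (D i)) := by
      funext l
      rw [Finset.sum_apply, Finset.sum_eq_single l]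
      · have : lam (C l) (D l) ≠ 0 := by
          rw [Ne, lam_eq_zero_iff, not_not]
          exact (hCD l l).2 rfl
        simp only [Pi.smul_apply, smul_eq_mul]
        field_simp
      · intro i _ hi
        have : lam (C l) (D i) = 0 := by
          rw [lam_eq_zero_iff]
          intro h
          exact hi ((hCD l i).1 h).symm
        simp only [Pi.smul_apply, smul_eq_mul, this, mul_zero]
      · intro h; exact absurd (Finset.mem_univ _) h
    rw [h5]
    exact Submodule.sum_mem _ fun i _ => Submodule.smul_mem _ _ (h1 i)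
  obtain ⟨P, b, hbinj, hbspan, hbli⟩ := exists_linearIndependent' ℚ v
  have : Finite T := by
    rw [hT]
    infer_instance
  have : Finite P := Finite.of_injective b hbinj
  have : Fintype P := Fintype.ofFinite P
  have hPκ : Fintype.card κ ≤ Fintype.card P := by
    have h1 := finrank_range_le_card (R := ℚ) (v ∘ b)
    unfold Set.finrank at h1
    rw [hbspan, hvspan, finrank_top, Module.finrank_fintype_fun_eq_card] at h1
    exact h1
  -- each point
  have hpt : ∀ y ∈ Y, #{p : P | y ∈ (b p).1} ≤ Fintype.card J := by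
    intro y _
    rw [← Fintype.card_subtype]
    let u : {p : P // y ∈ (b p).1} → (J → ℚ) := fun p j => lam (C (a j)) ((b p.1).1.erase y)
    have hu : LinearIndependent ℚ u := by
      -- the linear map back
      let L : (J → ℚ) →ₗ[ℚ] (κ → ℚ) :=
        { toFun := fun z i => (∏ x ∈ C i, (x - y)) * ∑ j, c i j * z j
          map_add' := by
            intro z z'
            funext i
            simp only [Pi.add_apply, mul_add, Finset.sum_add_distrib]
          map_smul' := by
            intro q z
            funext i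
            simp only [Pi.smul_apply, smul_eq_mul, RingHom.id_apply, Finset.mul_sum]
            apply Finset.sum_congr rfl
            intro j _
            ring }
      apply LinearIndependent.of_comp L
      have h1 : (L ∘ u) = (v ∘ b) ∘ (Subtype.val : {p : P // y ∈ (b p).1} → P) := by
        funext p i
        simp only [Function.comp_apply]
        change (∏ x ∈ C i, (x - y)) * ∑ j, c i j * lam (C (a j)) ((b p.1).1.erase y)
          = lam (C i) (b p.1).1
        have hp := (b p.1).2
        rw [Finset.mem_powersetCard] at hp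
        rw [← hcl i _ (by rw [Finset.card_erase_of_mem p.2, hp.2]; rfl)]
        conv_rhs => rw [← Finset.insert_erase p.2, lam_insert _ _ _ (Finset.notMem_erase _ _)]
        rw [mul_comm]
      rw [h1]
      exact hbli.comp _ Subtype.val_injective
    have h2 := hu.fintype_card_le_finrank
    rwa [Module.finrank_fintype_fun_eq_card] at h2
  have hcount : ∑ y ∈ Y, #{p : P | y ∈ (b p).1} = (r + 1) * Fintype.card P := by
    have h1 : ∑ y ∈ Y, #{p : P | y ∈ (b p).1} = ∑ p : P, #{y ∈ Y | y ∈ (b p).1} := by
      simp_rw [Finset.card_filter]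
      rw [Finset.sum_comm]
    rw [h1]
    have h2 : ∀ p : P, #{y ∈ Y | y ∈ (b p).1} = r + 1 := by
      intro p
      have hp := (b p).2
      rw [Finset.mem_powersetCard] at hp
      have : Y.filter (fun y => y ∈ (b p).1) = (b p).1 := by
        ext y
        rw [Finset.mem_filter]
        exact ⟨fun h => h.2, fun h => ⟨hp.1 h, h⟩⟩
      rw [this, hp.2]
    rw [Finset.sum_congr rfl (fun p _ => h2 p), Finset.sum_const, smul_eq_mul, Finset.card_univ]
    ring
  have hle : ∑ y ∈ Y, #{p : P | y ∈ (b p).1} ≤ (2 * r + 1) * Fintype.card J := by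
    refine (Finset.sum_le_sum hpt).trans ?_
    rw [Finset.sum_const, hY, smul_eq_mul]
  calc (r + 1) * Fintype.card κ ≤ (r + 1) * Fintype.card P := Nat.mul_le_mul_left _ hPκ
    _ ≤ _ := by rw [← hcount]; exact hle

/-- the set pair theorem over the rationals -/
theorem setpair_rat (r : ℕ) {ι κ : Type*} [Fintype ι] [Fintype κ]
    (A B : ι → Finset ℚ) (C D : κ → Finset ℚ)
    (hA : ∀ i, #(A i) = r) (hB : ∀ i, #(B i) = r) (hC : ∀ i, #(C i) = r)
    (hD : ∀ i, #(D i) = r + 1)
    (hAB : ∀ i j, Disjoint (A i) (B j) ↔ i = j)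
    (hCD : ∀ i j, Disjoint (C i) (D j) ↔ i = j)
    (hCA : ∀ i j, ¬ Disjoint (C i) (A j)) (hCB : ∀ i j, ¬ Disjoint (C i) (B j))
    (hCC : ∀ i j, ¬ Disjoint (C i) (C j)) :
    Fintype.card ι + Fintype.card κ ≤ (2 * r).choose r ∧
      (0 < Fintype.card κ → Fintype.card ι + Fintype.card κ < (2 * r).choose r) := by
  classical
  obtain ⟨J, a, hainj, haspan, hali⟩ := exists_linearIndependent' ℚ (fun i => phi r (C i))
  have : Finite J := Finite.of_injective a hainj
  have : Fintype J := Fintype.ofFinite J
  have h1 := core_one r A B (C ∘ a) hA hB (fun j => hC _) hAB (fun i j => hCA _ _)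
    (fun i j => hCB _ _) (fun i j => hCC _ _) hali
  have h2 := core_two r C D a hC hD hCD (by
    intro i
    have : phi r (C i) ∈ Submodule.span ℚ (Set.range (fun i => phi r (C i))) :=
      Submodule.subset_span ⟨i, rfl⟩
    rw [← haspan] at this
    exact this)
  have h3 : Fintype.card κ ≤ 2 * Fintype.card J := by
    by_contra hcon
    push Not at hcon
    nlinarith
  have h4 : 0 < Fintype.card κ → Fintype.card κ < 2 * Fintype.card J := by
    intro h5
    by_contra hcon
    push Not at hcon
    have : 0 < Fintype.card J := by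
      by_contra h6
      have : Fintype.card J = 0 := by omega
      rw [this] at h2
      nlinarith
    nlinarith
  constructor
  · omega
  · intro h5
    have := h4 h5
    omega

/-- adding new elements, with label `l`, to a set until it has `n` elements -/
def pad {α L : Type*} (l : L) (n : ℕ) (S : Finset α) : Finset (α ⊕ (L × ℕ)) :=
  S.disjSum ((Finset.range (n - #S)).map ⟨fun j => (l, j), fun _ _ h => (Prod.mk.inj h).2⟩)

theorem card_pad {α L : Type*} (l : L) (n : ℕ) (S : Finset α) (h : #S ≤ n) : #(pad l n S) = n := by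
  unfold pad
  rw [Finset.card_disjSum, Finset.card_map, Finset.card_range]
  omega

theorem disj_pad {α L : Type*} (l l' : L) (n n' : ℕ) (S S' : Finset α) (hl : l ≠ l')
    (h : Disjoint S S') : Disjoint (pad l n S) (pad l' n' S') := by
  unfold pad
  rw [Finset.disjoint_left]
  rintro (x | ⟨m, j⟩) hx hx'
  · rw [Finset.inl_mem_disjSum] at hx hx'
    exact (Finset.disjoint_left.1 h) hx hx'
  · rw [Finset.inr_mem_disjSum, Finset.mem_map] at hx hx'
    obtain ⟨a, _, ha⟩ := hx
    obtain ⟨b, _, hb⟩ := hx'
    have h1 := congrArg Prod.fst ha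
    have h2 := congrArg Prod.fst hb
    exact hl (h1.trans h2.symm)

theorem not_disj_pad {α L : Type*} (l l' : L) (n n' : ℕ) (S S' : Finset α)
    (h : ¬ Disjoint S S') : ¬ Disjoint (pad l n S) (pad l' n' S') := by
  rw [Finset.not_disjoint_iff] at h ⊢
  obtain ⟨x, hx, hx'⟩ := h
  refine ⟨Sum.inl x, ?_, ?_⟩ <;> unfold pad <;> rw [Finset.inl_mem_disjSum] <;> assumption

theorem exists_inj_rat {β : Type*} (X : Finset β) : ∃ g : β → ℚ, Set.InjOn g (X : Set β) := by
  obtain ⟨f, hf⟩ := Set.countable_iff_exists_injOn.1 X.countable_toSet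
  refine ⟨fun b => (f b : ℚ), ?_⟩
  intro x hx y hy h
  exact hf hx hy (Nat.cast_injective h)

theorem disjoint_image_iff {β : Type*} [DecidableEq β] (X : Finset β) (g : β → ℚ)
    (hg : Set.InjOn g (X : Set β)) (S S' : Finset β) (hS : S ⊆ X) (hS' : S' ⊆ X) :
    Disjoint (S.image g) (S'.image g) ↔ Disjoint S S' := by
  rw [Finset.disjoint_left, Finset.disjoint_left]
  constructor
  · intro h x hx hx'
    exact h (Finset.mem_image_of_mem g hx) (Finset.mem_image_of_mem g hx')
  · intro h q hq hq'
    rw [Finset.mem_image] at hq hq'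
    obtain ⟨x, hx, rfl⟩ := hq
    obtain ⟨y, hy, hxy⟩ := hq'
    have : y = x := hg (hS' hy) (hS hx) hxy
    exact h hx (this ▸ hy)

/-- the set pair theorem -/
theorem setpair (r : ℕ) {α ι κ : Type*} [Fintype ι] [Fintype κ]
    (A B : ι → Finset α) (C D : κ → Finset α)
    (hA : ∀ i, #(A i) ≤ r) (hB : ∀ i, #(B i) ≤ r) (hC : ∀ i, #(C i) ≤ r)
    (hD : ∀ i, #(D i) ≤ r + 1)
    (hAB : ∀ i j, Disjoint (A i) (B j) ↔ i = j)
    (hCD : ∀ i j, Disjoint (C i) (D j) ↔ i = j)
    (hCA : ∀ i j, ¬ Disjoint (C i) (A j)) (hCB : ∀ i j, ¬ Disjoint (C i) (B j))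
    (hCC : ∀ i j, ¬ Disjoint (C i) (C j)) :
    Fintype.card ι + Fintype.card κ ≤ (2 * r).choose r ∧
      (0 < Fintype.card κ → Fintype.card ι + Fintype.card κ < (2 * r).choose r) := by
  classical
  let L := (ι ⊕ ι) ⊕ (κ ⊕ κ)
  let A' : ι → Finset (α ⊕ (L × ℕ)) := fun i => pad (Sum.inl (Sum.inl i)) r (A i)
  let B' : ι → Finset (α ⊕ (L × ℕ)) := fun i => pad (Sum.inl (Sum.inr i)) r (B i)
  let C' : κ → Finset (α ⊕ (L × ℕ)) := fun i => pad (Sum.inr (Sum.inl i)) r (C i)
  let D' : κ → Finset (α ⊕ (L × ℕ)) := fun i => pad (Sum.inr (Sum.inr i)) (r + 1) (D i)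
  let X : Finset (α ⊕ (L × ℕ)) := (Finset.univ.biUnion fun i : ι => A' i ∪ B' i) ∪
    (Finset.univ.biUnion fun i : κ => C' i ∪ D' i)
  have hAX : ∀ i, A' i ⊆ X := fun i x hx => by
    rw [Finset.mem_union, Finset.mem_biUnion]
    exact Or.inl ⟨i, Finset.mem_univ _, Finset.mem_union_left _ hx⟩
  have hBX : ∀ i, B' i ⊆ X := fun i x hx => by
    rw [Finset.mem_union, Finset.mem_biUnion]
    exact Or.inl ⟨i, Finset.mem_univ _, Finset.mem_union_right _ hx⟩
  have hCX : ∀ i, C' i ⊆ X := fun i x hx => by
    rw [Finset.mem_union, Finset.mem_biUnion, Finset.mem_biUnion]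
    exact Or.inr ⟨i, Finset.mem_univ _, Finset.mem_union_left _ hx⟩
  have hDX : ∀ i, D' i ⊆ X := fun i x hx => by
    rw [Finset.mem_union, Finset.mem_biUnion, Finset.mem_biUnion]
    exact Or.inr ⟨i, Finset.mem_univ _, Finset.mem_union_right _ hx⟩
  obtain ⟨g, hg⟩ := exists_inj_rat X
  have hcard : ∀ S : Finset (α ⊕ (L × ℕ)), S ⊆ X → #(S.image g) = #S := fun S hS =>
    Finset.card_image_of_injOn (hg.mono hS)
  apply setpair_rat r (fun i => (A' i).image g) (fun i => (B' i).image g)
    (fun i => (C' i).image g) (fun i => (D' i).image g)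
  · intro i
    rw [hcard _ (hAX i)]
    exact card_pad _ _ _ (hA i)
  · intro i
    rw [hcard _ (hBX i)]
    exact card_pad _ _ _ (hB i)
  · intro i
    rw [hcard _ (hCX i)]
    exact card_pad _ _ _ (hC i)
  · intro i
    rw [hcard _ (hDX i)]
    exact card_pad _ _ _ (hD i)
  · intro i j
    rw [disjoint_image_iff X g hg _ _ (hAX i) (hBX j), ← hAB i j]
    constructor
    · intro h
      by_contra h2
      exact not_disj_pad _ _ _ _ _ _ h2 h
    · intro h
      exact disj_pad _ _ _ _ _ _ (by intro h3; injection h3 with h4; injection h4) h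
  · intro i j
    rw [disjoint_image_iff X g hg _ _ (hCX i) (hDX j), ← hCD i j]
    constructor
    · intro h
      by_contra h2
      exact not_disj_pad _ _ _ _ _ _ h2 h
    · intro h
      exact disj_pad _ _ _ _ _ _ (by intro h3; injection h3 with h4; injection h4) h
  · intro i j
    rw [disjoint_image_iff X g hg _ _ (hCX i) (hAX j)]
    exact not_disj_pad _ _ _ _ _ _ (hCA i j)
  · intro i j
    rw [disjoint_image_iff X g hg _ _ (hCX i) (hBX j)]
    exact not_disj_pad _ _ _ _ _ _ (hCB i j)
  · intro i j
    rw [disjoint_image_iff X g hg _ _ (hCX i) (hCX j)]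
    exact not_disj_pad _ _ _ _ _ _ (hCC i j)

end AlmostInt
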