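import Pool.Agent.AlmostInt.Sunflower
import Pool.Agent.AlmostInt.SetPair

open Finset

namespace AlmostInt

variable {α : Type*} [DecidableEq α]

theorem structure_lemma (r t : ℕ) (hr : 1 ≤ r) (ht : r + 1 < t) (F : Finset (Finset α))
    (hF : ∀ E ∈ F, #E = r + 1) (h1 : ∀ A ∈ F, 1 ≤ #{B ∈ F | Disjoint A B}) :
    ∃ R D : Finset (Finset α), (∀ K ∈ R, IsKernel F t K) ∧ D ⊆ F ∧
      #{A ∈ F | (∀ B ∈ R, ¬ Disjoint A B) ∧ ∀ B ∈ D, ¬ Disjoint A B} ≤
        2 * ((r + 1).factorial * (t - 1) ^ (r + 1) * (2 * (r + 1)).choose (r + 1)) ∧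
      #R + #D ≤ (2 * r).choose r ∧ (0 < #D → #R + #D < (2 * r).choose r) ∧
      (#R = (2 * r).choose r → ∃ Y : Finset α, #Y = 2 * r ∧ (∀ X ⊆ Y, #X = r → X ∈ R) ∧
        ∀ X ∈ R, X ⊆ Y ∧ #X = r) := by
  classical
  set M := (r + 1).factorial * (t - 1) ^ (r + 1) with hM
  have ht2 : 2 ≤ t := by omega
  let kers : Finset (Finset α) := (F.biUnion id).powerset.filter (fun K => IsKernel F t K)
  have hker : ∀ K, K ∈ kers ↔ IsKernel F t K := by
    intro K
    rw [Finset.mem_filter, Finset.mem_powerset]
    constructor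
    · exact fun h => h.2
    · intro h
      refine ⟨?_, h⟩
      obtain ⟨S, hSF, hSt, hS⟩ := h
      obtain ⟨E, hE⟩ := Finset.card_pos.1 (by omega : 0 < #S)
      exact (hS.1 E hE).trans (Finset.subset_biUnion_of_mem id (hSF hE))
  have hkc : ∀ K, IsKernel F t K → #K ≤ r := fun K hK => by
    have := kernel_card hF ht2 hK
    omega
  let F₀ := F.filter (fun A => ∃ K ∈ kers, Disjoint A K)
  let F₁ := F.filter (fun A => ¬ ∃ K ∈ kers, Disjoint A K)
  obtain ⟨R, hR, hRleft, hRpriv⟩ := cleaning (r + 1) F₀ kers
    (fun A hA => (hF A (Finset.mem_filter.1 hA).1).le)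
    (fun K hK => (hkc K ((hker K).1 hK)).trans (Nat.le_succ r))
    (fun A hA => (Finset.mem_filter.1 hA).2) M
  obtain ⟨D, hD, hDleft, hDpriv⟩ := cleaning (r + 1) F₁ F
    (fun A hA => (hF A (Finset.mem_filter.1 hA).1).le)
    (fun K hK => (hF K hK).le)
    (fun A hA => by
      have := h1 A (Finset.mem_filter.1 hA).1
      obtain ⟨B, hB⟩ := Finset.card_pos.1 this
      rw [Finset.mem_filter] at hB
      exact ⟨B, hB.1, hB.2⟩) M
  have ha : ∀ B ∈ R, ∃ A', IsKernel F t A' ∧ Disjoint A' B ∧
      ∀ B' ∈ R, B ≠ B' → ¬ Disjoint A' B' := by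
    intro B hB
    obtain ⟨K, S, hS, hSt, hSun⟩ := sunflower t (r + 1) _ (by
      intro E hE
      exact hF E (Finset.mem_filter.1 (Finset.mem_filter.1 hE).1).1) (hRpriv B hB)
    refine ⟨K, ⟨S, ?_, hSt, hSun⟩, ?_, ?_⟩
    · intro E hE
      exact (Finset.mem_filter.1 (Finset.mem_filter.1 (hS hE)).1).1
    · exact kernel_disjoint hSun B (by omega) fun E hE => (Finset.mem_filter.1 (hS hE)).2.1
    · intro B' hB' hne
      apply kernel_meets hSun B'
      · have := hkc B' ((hker B').1 (hR hB'))
        omega
      · intro E hE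
        exact (Finset.mem_filter.1 (hS hE)).2.2 B' hB' hne.symm
  have hc : ∀ B ∈ D, ∃ C, IsKernel F t C ∧ Disjoint C B ∧
      (∀ B' ∈ D, B ≠ B' → ¬ Disjoint C B') ∧ ∀ K, IsKernel F t K → ¬ Disjoint C K := by
    intro B hB
    obtain ⟨K, S, hS, hSt, hSun⟩ := sunflower t (r + 1) _ (by
      intro E hE
      exact hF E (Finset.mem_filter.1 (Finset.mem_filter.1 hE).1).1) (hDpriv B hB)
    refine ⟨K, ⟨S, ?_, hSt, hSun⟩, ?_, ?_, ?_⟩
    · intro E hE
      exact (Finset.mem_filter.1 (Finset.mem_filter.1 (hS hE)).1).1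
    · exact kernel_disjoint hSun B (by omega) fun E hE => (Finset.mem_filter.1 (hS hE)).2.1
    · intro B' hB' hne
      apply kernel_meets hSun B'
      · have := hF B' (hD hB')
        omega
      · intro E hE
        exact (Finset.mem_filter.1 (hS hE)).2.2 B' hB' hne.symm
    · intro K' hK'
      apply kernel_meets hSun K'
      · have := hkc K' hK'
        omega
      · intro E hE hd
        have h2 := (Finset.mem_filter.1 (Finset.mem_filter.1 (hS hE)).1).2
        exact h2 ⟨K', (hker K').2 hK', hd⟩
  choose! a ha1 ha2 ha3 using ha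
  choose! c hc1 hc2 hc3 hc4 using hc
  have hRk : ∀ K ∈ R, IsKernel F t K := fun K hK => (hker K).1 (hR hK)
  have hsp := setpair r (ι := {B // B ∈ R}) (κ := {B // B ∈ D})
    (fun i => a i.1) (fun i => i.1) (fun j => c j.1) (fun j => j.1)
    (fun i => hkc _ (ha1 i.1 i.2)) (fun i => hkc _ (hRk i.1 i.2)) (fun j => hkc _ (hc1 j.1 j.2))
    (fun j => (hF j.1 (hD j.2)).le)
    (fun i j => by
      constructor
      · intro h
        by_contra hne
        exact ha3 i.1 i.2 j.1 j.2 (fun h => hne (Subtype.ext h)) h
      · rintro rfl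
        exact ha2 i.1 i.2)
    (fun i j => by
      constructor
      · intro h
        by_contra hne
        exact hc3 i.1 i.2 j.1 j.2 (fun h => hne (Subtype.ext h)) h
      · rintro rfl
        exact hc2 i.1 i.2)
    (fun i j => hc4 i.1 i.2 _ (ha1 j.1 j.2))
    (fun i j => hc4 i.1 i.2 _ (hRk j.1 j.2))
    (fun i j => hc4 i.1 i.2 _ (hc1 j.1 j.2))
  rw [Fintype.card_coe, Fintype.card_coe] at hsp
  refine ⟨R, D, hRk, hD, ?_, hsp.1, hsp.2, ?_⟩
  · have h2 : F.filter (fun A => (∀ B ∈ R, ¬ Disjoint A B) ∧ ∀ B ∈ D, ¬ Disjoint A B) ⊆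
        F₀.filter (fun A => ∀ B ∈ R, ¬ Disjoint A B) ∪
          F₁.filter (fun A => ∀ B ∈ D, ¬ Disjoint A B) := by
      intro A hA
      rw [Finset.mem_filter] at hA
      rw [Finset.mem_union, Finset.mem_filter, Finset.mem_filter, Finset.mem_filter,
        Finset.mem_filter]
      by_cases h3 : ∃ K ∈ kers, Disjoint A K
      · left; exact ⟨⟨hA.1, h3⟩, hA.2.1⟩
      · right; exact ⟨⟨hA.1, h3⟩, hA.2.2⟩
    have h3 := (Finset.card_le_card h2).trans (Finset.card_union_le _ _)
    omega
  · intro hRN
    obtain ⟨Y, hY1, hY2, hY3⟩ := extremal_structure r R a id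
      (fun B hB => hkc _ (ha1 B hB)) (fun B hB => hkc _ (hRk B hB)) ha2 ha3 hRN
    refine ⟨Y, hY1, ?_, ?_⟩
    · intro X hX hXc
      obtain ⟨i, hi, _, h3⟩ := hY2 (Y \ X) Finset.sdiff_subset (by
        rw [Finset.card_sdiff_of_subset hX, hY1, hXc]; omega)
      rw [id, Finset.sdiff_sdiff_eq_self hX] at h3
      rw [← h3]
      exact hi
    · intro X hX
      obtain ⟨h2, h3, h4⟩ := hY3 X hX
      rw [id] at h4
      rw [h4]
      refine ⟨Finset.sdiff_subset, ?_⟩
      rw [Finset.card_sdiff_of_subset h2, hY1, h3]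
      omega

/-- the members with a given trace `X` on `Y` that meet a set `E` disjoint from `X` -/
theorem trace_meet (r : ℕ) (F : Finset (Finset α)) (hF : ∀ E ∈ F, #E = r + 1)
    (X Y E : Finset α) (hXY : X ⊆ Y) (hX : #X = r) (hE : Disjoint E X) :
    #{E' ∈ F | E' ∩ Y = X} ≤ #{E' ∈ F | E' ∩ Y = X ∧ Disjoint E E'} + #(E \ Y) := by
  classical
  have h1 := Finset.card_filter_add_card_filter_not (s := F.filter (fun E' => E' ∩ Y = X))
    (fun E' => Disjoint E E')
  rw [Finset.filter_filter] at h1
  rw [← h1]
  apply Nat.add_le_add_left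
  apply Finset.card_le_card_of_forall_subsingleton (fun E' x => x ∈ E')
  · intro E' hE'
    rw [Finset.mem_filter, Finset.mem_filter, Finset.not_disjoint_iff] at hE'
    obtain ⟨⟨_, h3⟩, x, hx, hx'⟩ := hE'
    refine ⟨x, ?_, hx'⟩
    rw [Finset.mem_sdiff]
    refine ⟨hx, ?_⟩
    intro hxY
    have : x ∈ X := by rw [← h3]; exact Finset.mem_inter.2 ⟨hx', hxY⟩
    exact (Finset.disjoint_left.1 hE) hx this
  · intro x hx E₁ h₁ E₂ h₂
    rw [Finset.mem_sdiff] at hx
    have key : ∀ E' ∈ F, E' ∩ Y = X → x ∈ E' → E' = insert x X := by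
      intro E' hE' h3 hxE'
      symm
      apply Finset.eq_of_subset_of_card_le
      · apply Finset.insert_subset hxE'
        rw [← h3]
        exact Finset.inter_subset_left
      · rw [hF E' hE', Finset.card_insert_of_notMem (fun h => hx.2 (hXY h)), hX]
    obtain ⟨h₁, h₁'⟩ := h₁
    obtain ⟨h₂, h₂'⟩ := h₂
    rw [Finset.mem_filter, Finset.mem_filter] at h₁ h₂
    rw [key E₁ h₁.1.1 h₁.1.2 h₁', key E₂ h₂.1.1 h₂.1.2 h₂']

theorem main_bound (r : ℕ) (hr : 1 ≤ r) :
    ∃ s₁ : ℕ, ∀ s : ℕ, s₁ < s → ∀ (α : Type*) [DecidableEq α] (F : Finset (Finset α)),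
      (∀ E ∈ F, #E = r + 1) →
      (∀ A ∈ F, 1 ≤ #{B ∈ F | Disjoint A B} ∧ #{B ∈ F | Disjoint A B} ≤ s) →
      #F ≤ (s + 1) * (2 * r).choose r := by
  classical
  set N := (2 * r).choose r with hN
  have hNpos : 1 ≤ N := Nat.choose_pos (by omega)
  set t := (r + 1) + 4 * (r + 1) * N with ht
  have htr : r + 1 < t := by
    have : 0 < (r + 1) * N := Nat.mul_pos (Nat.succ_pos r) hNpos
    rw [ht, Nat.mul_assoc]
    omega
  set L := 2 * ((r + 1).factorial * (t - 1) ^ (r + 1) * (2 * (r + 1)).choose (r + 1)) with hL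
  refine ⟨4 * L + 4 * (r + 1), ?_⟩
  intro s hs α _ F hF hint
  obtain ⟨R, D, hRk, hDF, hleft, hle, hlt, hext⟩ := structure_lemma r t hr htr F hF
    (fun A hA => (hint A hA).1)
  rw [← hN] at hle hlt hext
  rw [← hL] at hleft
  -- the bound on the kernels
  have hcountR : ∀ K ∈ R, 4 * N * #{A ∈ F | Disjoint A K} ≤ (4 * N + 1) * s := by
    intro K hK
    have h1 := kernel_count hF (fun A hA => (hint A hA).2) (hRk K hK)
    have h2 : t - (r + 1) = 4 * (r + 1) * N := by omega
    rw [h2, ht] at h1
    have h3 : (r + 1) * (4 * N * #{A ∈ F | Disjoint A K}) ≤ (r + 1) * ((4 * N + 1) * s) := by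
      calc (r + 1) * (4 * N * #{A ∈ F | Disjoint A K})
          = #{A ∈ F | Disjoint A K} * (4 * (r + 1) * N) := by ring
        _ ≤ (r + 1 + 4 * (r + 1) * N) * s := h1
        _ = (r + 1) * ((4 * N + 1) * s) := by ring
    exact Nat.le_of_mul_le_mul_left h3 (Nat.succ_pos r)
  have hcountD : ∀ K ∈ D, 4 * N * #{A ∈ F | Disjoint A K} ≤ (4 * N + 1) * s := by
    intro K hK
    have h1 := (hint K (hDF hK)).2
    have h2 : F.filter (fun A => Disjoint A K) = F.filter (fun A => Disjoint K A) := by
      apply Finset.filter_congr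
      intro A _
      rw [disjoint_comm]
    rw [h2]
    nlinarith
  by_contra hcon
  push Not at hcon
  by_cases hcase : #R + #D < N
  · -- few sets
    have h1 : F ⊆ ((R ∪ D).biUnion (fun K => F.filter (fun A => Disjoint A K))) ∪
        F.filter (fun A => (∀ B ∈ R, ¬ Disjoint A B) ∧ ∀ B ∈ D, ¬ Disjoint A B) := by
      intro A hA
      rw [Finset.mem_union, Finset.mem_biUnion, Finset.mem_filter]
      by_cases h2 : ∃ K ∈ R ∪ D, Disjoint A K
      · left
        obtain ⟨K, hK, hd⟩ := h2
        exact ⟨K, hK, Finset.mem_filter.2 ⟨hA, hd⟩⟩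
      · right
        push Not at h2
        exact ⟨hA, fun B hB => h2 B (Finset.mem_union_left _ hB),
          fun B hB => h2 B (Finset.mem_union_right _ hB)⟩
    have h2 := (Finset.card_le_card h1).trans (Finset.card_union_le _ _)
    have h3 : 4 * N * #((R ∪ D).biUnion (fun K => F.filter (fun A => Disjoint A K)))
        ≤ (N - 1) * ((4 * N + 1) * s) := by
      calc 4 * N * #((R ∪ D).biUnion (fun K => F.filter (fun A => Disjoint A K)))
          ≤ 4 * N * ∑ K ∈ R ∪ D, #{A ∈ F | Disjoint A K} :=
            Nat.mul_le_mul_left _ Finset.card_biUnion_le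
        _ = ∑ K ∈ R ∪ D, 4 * N * #{A ∈ F | Disjoint A K} := by rw [Finset.mul_sum]
        _ ≤ ∑ K ∈ R ∪ D, (4 * N + 1) * s := by
            apply Finset.sum_le_sum
            intro K hK
            rw [Finset.mem_union] at hK
            rcases hK with hK | hK
            · exact hcountR K hK
            · exact hcountD K hK
        _ = #(R ∪ D) * ((4 * N + 1) * s) := by rw [Finset.sum_const, smul_eq_mul]
        _ ≤ (N - 1) * ((4 * N + 1) * s) := by
            apply Nat.mul_le_mul_right
            have := Finset.card_union_le R D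
            omega
    obtain ⟨n, hn⟩ : ∃ n, N = n + 1 := ⟨N - 1, by omega⟩
    have h4 : 4 * N * #F ≤ (N - 1) * ((4 * N + 1) * s) + 4 * N * L := by
      calc 4 * N * #F ≤ 4 * N * (#((R ∪ D).biUnion (fun K => F.filter (fun A => Disjoint A K))) +
          #{A ∈ F | (∀ B ∈ R, ¬ Disjoint A B) ∧ ∀ B ∈ D, ¬ Disjoint A B}) :=
            Nat.mul_le_mul_left _ h2
        _ = 4 * N * #((R ∪ D).biUnion (fun K => F.filter (fun A => Disjoint A K))) + 4 * N *
          #{A ∈ F | (∀ B ∈ R, ¬ Disjoint A B) ∧ ∀ B ∈ D, ¬ Disjoint A B} := by rw [Nat.mul_add]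
        _ ≤ _ := Nat.add_le_add h3 (Nat.mul_le_mul_left _ hleft)
    rw [hn] at h4 hcon
    simp only [Nat.add_sub_cancel] at h4
    nlinarith
  · -- the extremal case
    have hD0 : #D = 0 := by
      by_contra h1
      exact hcase (hlt (by omega))
    have hRN : #R = N := by omega
    obtain ⟨Y, hYc, hY1, hY2⟩ := hext hRN
    have hD' : D = ∅ := Finset.card_eq_zero.1 hD0
    have hleft' : #{A ∈ F | ∀ B ∈ R, ¬ Disjoint A B} ≤ L := by
      refine le_trans (Finset.card_le_card ?_) hleft
      intro A hA
      rw [Finset.mem_filter] at hA ⊢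
      refine ⟨hA.1, hA.2, ?_⟩
      intro B hB
      rw [hD'] at hB
      simp at hB
    -- lower bound on the traces
    have htrace : ∀ X ⊆ Y, #X = r → 3 * s < 4 * (#{E ∈ F | E ∩ Y = X} + L) := by
      intro X hX hXc
      set B := Y \ X with hB
      have hBY : B ⊆ Y := Finset.sdiff_subset
      have hBc : #B = r := by rw [hB, Finset.card_sdiff_of_subset hX, hYc, hXc]; omega
      have hBR : B ∈ R := hY1 B hBY hBc
      have hYB : Y \ B = X := Finset.sdiff_sdiff_eq_self hX
      have h1 : F ⊆ (F.filter (fun E => E ∩ Y = X) ∪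
          ((R.erase B).biUnion (fun K => F.filter (fun A => Disjoint A K)))) ∪
          F.filter (fun A => ∀ B ∈ R, ¬ Disjoint A B) := by
        intro E hE
        rw [Finset.mem_union, Finset.mem_union, Finset.mem_filter, Finset.mem_filter,
          Finset.mem_biUnion]
        by_cases h2 : ∃ K ∈ R, Disjoint E K
        · left
          by_cases h3 : ∃ K ∈ R.erase B, Disjoint E K
          · right
            obtain ⟨K, hK, hd⟩ := h3
            exact ⟨K, hK, Finset.mem_filter.2 ⟨hE, hd⟩⟩
          · left
            refine ⟨hE, ?_⟩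
            push Not at h3
            obtain ⟨K, hK, hd⟩ := h2
            have hKB : K = B := by
              by_contra hKB
              exact h3 K (Finset.mem_erase.2 ⟨hKB, hK⟩) hd
            rw [hKB] at hd
            have h4 : Y \ E = B := by
              apply Finset.Subset.antisymm
              · intro y hy
                rw [Finset.mem_sdiff] at hy
                by_contra hyB
                obtain ⟨b, hb⟩ := Finset.card_pos.1 (by omega : 0 < #B)
                have h5 : insert y (B.erase b) ∈ R.erase B := by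
                  rw [Finset.mem_erase]
                  constructor
                  · intro h6
                    apply hyB
                    rw [← h6]
                    exact Finset.mem_insert_self _ _
                  · apply hY1
                    · apply Finset.insert_subset hy.1
                      exact (Finset.erase_subset _ _).trans hBY
                    · rw [Finset.card_insert_of_notMem
                        (fun h => hyB (Finset.mem_of_mem_erase h)),
                        Finset.card_erase_of_mem hb, hBc]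
                      omega
                apply h3 _ h5
                rw [Finset.disjoint_left]
                intro z hz hz'
                rw [Finset.mem_insert] at hz'
                rcases hz' with rfl | hz'
                · exact hy.2 hz
                · exact (Finset.disjoint_left.1 hd) hz (Finset.mem_of_mem_erase hz')
              · intro y hy
                rw [Finset.mem_sdiff]
                exact ⟨hBY hy, fun h => (Finset.disjoint_left.1 hd) h hy⟩
            rw [← hYB, ← h4]
            ext x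
            rw [Finset.mem_inter, Finset.mem_sdiff, Finset.mem_sdiff]
            constructor
            · rintro ⟨hx1, hx2⟩
              exact ⟨hx2, fun h => h.2 hx1⟩
            · rintro ⟨hx1, hx2⟩
              refine ⟨?_, hx1⟩
              by_contra hx3
              exact hx2 ⟨hx1, hx3⟩
        · right
          push Not at h2
          exact ⟨hE, h2⟩
      have h2 := (Finset.card_le_card h1).trans (Finset.card_union_le _ _)
      have h2' := Finset.card_union_le (F.filter (fun E => E ∩ Y = X))
          ((R.erase B).biUnion (fun K => F.filter (fun A => Disjoint A K)))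
      have h3 : 4 * N * #((R.erase B).biUnion (fun K => F.filter (fun A => Disjoint A K)))
          ≤ (N - 1) * ((4 * N + 1) * s) := by
        calc 4 * N * #((R.erase B).biUnion (fun K => F.filter (fun A => Disjoint A K)))
            ≤ 4 * N * ∑ K ∈ R.erase B, #{A ∈ F | Disjoint A K} :=
              Nat.mul_le_mul_left _ Finset.card_biUnion_le
          _ = ∑ K ∈ R.erase B, 4 * N * #{A ∈ F | Disjoint A K} := by rw [Finset.mul_sum]
          _ ≤ ∑ K ∈ R.erase B, (4 * N + 1) * s := by
              apply Finset.sum_le_sum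
              intro K hK
              exact hcountR K (Finset.mem_of_mem_erase hK)
          _ = #(R.erase B) * ((4 * N + 1) * s) := by rw [Finset.sum_const, smul_eq_mul]
          _ = (N - 1) * ((4 * N + 1) * s) := by
              rw [Finset.card_erase_of_mem hBR, hRN]
      obtain ⟨n, hn⟩ : ∃ n, N = n + 1 := ⟨N - 1, by omega⟩
      have h4 : 4 * N * #F ≤ 4 * N * #{E ∈ F | E ∩ Y = X} + (N - 1) * ((4 * N + 1) * s)
          + 4 * N * L := by
        have h5 : #F ≤ #{E ∈ F | E ∩ Y = X} +
          #((R.erase B).biUnion (fun K => F.filter (fun A => Disjoint A K))) + L := by omega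
        have h6 := Nat.mul_le_mul_left (4 * N) h5
        rw [Nat.mul_add, Nat.mul_add] at h6
        omega
      by_contra h7
      push Not at h7
      rw [hn] at h4 hcon
      simp only [Nat.add_sub_cancel] at h4
      nlinarith
    -- no small traces
    have hbig : ∀ E ∈ F, r ≤ #(E ∩ Y) := by
      intro E hE
      by_contra hlt'
      push Not at hlt'
      have h1 : r + 1 ≤ #(Y \ E) := by
        have := Finset.card_sdiff_add_card_inter Y E
        rw [Finset.inter_comm] at this
        omega
      obtain ⟨Z, hZ, hZc⟩ := Finset.exists_subset_card_eq h1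
      obtain ⟨z₁, hz₁, z₂, hz₂, hz⟩ := Finset.one_lt_card.1 (by omega : 1 < #Z)
      have hX : ∀ z ∈ Z, Z.erase z ⊆ Y ∧ #(Z.erase z) = r ∧ Disjoint E (Z.erase z) := by
        intro z hz
        refine ⟨?_, ?_, ?_⟩
        · exact (Finset.erase_subset _ _).trans (hZ.trans Finset.sdiff_subset)
        · rw [Finset.card_erase_of_mem hz, hZc]; rfl
        · rw [Finset.disjoint_left]
          intro x hx hx'
          have := hZ (Finset.mem_of_mem_erase hx')
          rw [Finset.mem_sdiff] at this
          exact this.2 hx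
      obtain ⟨h2, h3, h4⟩ := hX z₁ hz₁
      obtain ⟨h5, h6, h7⟩ := hX z₂ hz₂
      have e1 := trace_meet r F hF (Z.erase z₁) Y E h2 h3 h4
      have e2 := trace_meet r F hF (Z.erase z₂) Y E h5 h6 h7
      have e3 := htrace _ h2 h3
      have e4 := htrace _ h5 h6
      have e5 : #(E \ Y) ≤ r + 1 := by
        rw [← hF E hE]
        exact Finset.card_le_card Finset.sdiff_subset
      have e6 : #{E' ∈ F | E' ∩ Y = Z.erase z₁ ∧ Disjoint E E'} +
          #{E' ∈ F | E' ∩ Y = Z.erase z₂ ∧ Disjoint E E'} ≤ #{B ∈ F | Disjoint E B} := by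
        rw [← Finset.card_union_of_disjoint]
        · apply Finset.card_le_card
          intro A hA
          rw [Finset.mem_union, Finset.mem_filter, Finset.mem_filter] at hA
          rw [Finset.mem_filter]
          rcases hA with hA | hA
          · exact ⟨hA.1, hA.2.2⟩
          · exact ⟨hA.1, hA.2.2⟩
        · rw [Finset.disjoint_left]
          intro A hA hA'
          rw [Finset.mem_filter] at hA hA'
          have h8 : Z.erase z₁ = Z.erase z₂ := hA.2.1.symm.trans hA'.2.1
          have h9 : z₂ ∈ Z.erase z₁ := Finset.mem_erase.2 ⟨hz.symm, hz₂⟩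
          rw [h8] at h9
          exact (Finset.notMem_erase _ _) h9
      have e7 := (hint E hE).2
      omega
    have hexact : ∀ E ∈ F, #(E ∩ Y) = r := by
      intro E hE
      have h1 := hbig E hE
      have h2 : #(E ∩ Y) ≤ r + 1 := by
        rw [← hF E hE]
        exact Finset.card_le_card Finset.inter_subset_left
      by_contra h3
      have h4 : #(E ∩ Y) = r + 1 := by omega
      obtain ⟨E', hE'⟩ := Finset.card_pos.1 (hint E hE).1
      rw [Finset.mem_filter] at hE'
      have h5 := hbig E' hE'.1
      have h6 : #(E ∩ Y) + #(E' ∩ Y) ≤ #Y := by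
        rw [← Finset.card_union_of_disjoint]
        · exact Finset.card_le_card (Finset.union_subset Finset.inter_subset_right
            Finset.inter_subset_right)
        · exact Finset.disjoint_of_subset_left Finset.inter_subset_left
            (Finset.disjoint_of_subset_right Finset.inter_subset_left hE'.2)
      omega
    have hupper : ∀ X ⊆ Y, #X = r → #{E ∈ F | E ∩ Y = X} ≤ s + 1 := by
      intro X hX hXc
      have hX'Y : Y \ X ⊆ Y := Finset.sdiff_subset
      have hX'c : #(Y \ X) = r := by rw [Finset.card_sdiff_of_subset hX, hYc, hXc]; omega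
      have h1 := htrace _ hX'Y hX'c
      obtain ⟨E', hE'⟩ := Finset.card_pos.1 (by omega : 0 < #{E ∈ F | E ∩ Y = Y \ X})
      rw [Finset.mem_filter] at hE'
      have h2 : Disjoint E' X := by
        rw [Finset.disjoint_left]
        intro x hx hx'
        have : x ∈ Y \ X := by
          rw [← hE'.2]
          exact Finset.mem_inter.2 ⟨hx, hX hx'⟩
        exact (Finset.mem_sdiff.1 this).2 hx'
      have h3 := trace_meet r F hF X Y E' hX hXc h2
      have h4 : #(E' \ Y) = 1 := by
        have := Finset.card_sdiff_add_card_inter E' Y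
        rw [hF E' hE'.1, hexact E' hE'.1] at this
        omega
      have h5 : #{E ∈ F | E ∩ Y = X ∧ Disjoint E' E} ≤ s := by
        refine le_trans (Finset.card_le_card ?_) (hint E' hE'.1).2
        intro A hA
        rw [Finset.mem_filter] at hA ⊢
        exact ⟨hA.1, hA.2.2⟩
      omega
    have hfin : #F ≤ N * (s + 1) := by
      have h1 : F ⊆ (Y.powersetCard r).biUnion (fun X => F.filter (fun E => E ∩ Y = X)) := by
        intro E hE
        rw [Finset.mem_biUnion]
        refine ⟨E ∩ Y, ?_, Finset.mem_filter.2 ⟨hE, rfl⟩⟩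
        rw [Finset.mem_powersetCard]
        exact ⟨Finset.inter_subset_right, hexact E hE⟩
      refine (Finset.card_le_card h1).trans ?_
      have h2 := Finset.card_biUnion_le_card_mul (Y.powersetCard r)
        (fun X => F.filter (fun E => E ∩ Y = X)) (s + 1) (by
          intro X hX
          rw [Finset.mem_powersetCard] at hX
          exact hupper X hX.1 hX.2)
      rw [Finset.card_powersetCard, hYc, ← hN] at h2
      exact h2
    rw [Nat.mul_comm] at hfin
    omega

end AlmostInt
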