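import Pool.Agent.AlmostInt.Bollobas

open Finset

namespace AlmostInt

variable {α : Type*} [DecidableEq α]

/-- `S` is a sunflower with kernel `K` -/
def Sun (S : Finset (Finset α)) (K : Finset α) : Prop :=
  (∀ E ∈ S, K ⊆ E) ∧ (∀ E ∈ S, ∀ E' ∈ S, E ≠ E' → Disjoint (E \ K) (E' \ K))

/-- `K` is the kernel of a sunflower of `t` members of `F` -/
def IsKernel (F : Finset (Finset α)) (t : ℕ) (K : Finset α) : Prop :=
  ∃ S ⊆ F, #S = t ∧ Sun S K

/-- the sunflower lemma -/
theorem sunflower (t : ℕ) (k : ℕ) : ∀ G : Finset (Finset α), (∀ E ∈ G, #E = k) →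
    k.factorial * (t - 1) ^ k < #G → ∃ K, IsKernel G t K := by
  induction k with
  | zero =>
    intro G hG hlt
    exfalso
    have : #G ≤ 1 := by
      rw [Finset.card_le_one]
      intro a ha b hb
      rw [Finset.card_eq_zero.1 (hG a ha), Finset.card_eq_zero.1 (hG b hb)]
    simp at hlt
    omega
  | succ k ih =>
    intro G hG hlt
    -- a maximal disjoint subfamily
    let fam : Finset (Finset (Finset α)) :=
      G.powerset.filter (fun P => ∀ E ∈ P, ∀ E' ∈ P, E ≠ E' → Disjoint E E')
    have hne : fam.Nonempty := ⟨∅, by simp [fam]⟩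
    obtain ⟨P, hP, hmax⟩ := Finset.exists_max_image fam Finset.card hne
    rw [Finset.mem_filter, Finset.mem_powerset] at hP
    by_cases hPt : t ≤ #P
    · obtain ⟨S, hSP, hSt⟩ := Finset.exists_subset_card_eq hPt
      refine ⟨∅, S, hSP.trans hP.1, hSt, fun E _ => Finset.empty_subset _, ?_⟩
      intro E hE E' hE' h
      rw [Finset.sdiff_empty, Finset.sdiff_empty]
      exact hP.2 E (hSP hE) E' (hSP hE') h
    · push Not at hPt
      set U := P.biUnion id with hU
      have hUc : #U ≤ (t - 1) * (k + 1) := by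
        refine (Finset.card_biUnion_le_card_mul P id (k + 1) ?_).trans ?_
        · intro E hE
          rw [id, hG E (hP.1 hE)]
        · exact Nat.mul_le_mul_right _ (by omega)
      have hmeet : ∀ E ∈ G, ∃ x ∈ U, x ∈ E := by
        intro E hE
        by_contra hcon
        push Not at hcon
        have hEP : E ∉ P := by
          intro hEP
          have : 0 < #E := by rw [hG E hE]; omega
          obtain ⟨x, hx⟩ := Finset.card_pos.1 this
          exact hcon x (by rw [hU, Finset.mem_biUnion]; exact ⟨E, hEP, hx⟩) hx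
        have hdis : ∀ E' ∈ P, Disjoint E E' := by
          intro E' hE'
          rw [Finset.disjoint_left]
          intro x hx hx'
          exact hcon x (by rw [hU, Finset.mem_biUnion]; exact ⟨E', hE', hx'⟩) hx
        have hins : insert E P ∈ fam := by
          rw [Finset.mem_filter, Finset.mem_powerset]
          refine ⟨Finset.insert_subset hE hP.1, ?_⟩
          intro X hX X' hX' hXX
          rw [Finset.mem_insert] at hX hX'
          rcases hX with rfl | hX
          · rcases hX' with rfl | hX'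
            · exact absurd rfl hXX
            · exact hdis X' hX'
          · rcases hX' with rfl | hX'
            · exact (hdis X hX).symm
            · exact hP.2 X hX X' hX' hXX
        have := hmax _ hins
        rw [Finset.card_insert_of_notMem hEP] at this
        omega
      have hbig : ∃ x ∈ U, k.factorial * (t - 1) ^ k < #{E ∈ G | x ∈ E} := by
        by_contra hcon
        push Not at hcon
        have h1 : G ⊆ U.biUnion (fun x => G.filter (fun E => x ∈ E)) := by
          intro E hE
          obtain ⟨x, hx, hxE⟩ := hmeet E hE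
          rw [Finset.mem_biUnion]
          exact ⟨x, hx, Finset.mem_filter.2 ⟨hE, hxE⟩⟩
        have h2 := (Finset.card_le_card h1).trans (Finset.card_biUnion_le_card_mul U _ _ hcon)
        have h3 : #U * (k.factorial * (t - 1) ^ k) ≤ (t - 1) * (k + 1) * (k.factorial * (t - 1) ^ k) :=
          Nat.mul_le_mul_right _ hUc
        have h4 : (t - 1) * (k + 1) * (k.factorial * (t - 1) ^ k)
            = (k + 1).factorial * (t - 1) ^ (k + 1) := by
          rw [Nat.factorial_succ, pow_succ]
          ring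
        omega
      obtain ⟨x, hxU, hx⟩ := hbig
      set G' := (G.filter (fun E => x ∈ E)).image (fun E => E.erase x) with hG'
      have hinj : Set.InjOn (fun E : Finset α => E.erase x)
          ((G.filter (fun E => x ∈ E) : Finset _) : Set (Finset α)) := by
        intro E hE E' hE' h
        rw [Finset.mem_coe, Finset.mem_filter] at hE hE'
        rw [← Finset.insert_erase hE.2, ← Finset.insert_erase hE'.2]
        simp only at h
        rw [h]
      have hG'c : #G' = #{E ∈ G | x ∈ E} := Finset.card_image_of_injOn hinj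
      obtain ⟨K, S', hS', hSt, hK1, hK2⟩ := ih G' (by
        intro E hE
        rw [hG', Finset.mem_image] at hE
        obtain ⟨E₀, hE₀, rfl⟩ := hE
        rw [Finset.mem_filter] at hE₀
        rw [Finset.card_erase_of_mem hE₀.2, hG E₀ hE₀.1]
        rfl) (by rw [hG'c]; exact hx)
      have hxS' : ∀ E ∈ S', x ∉ E ∧ insert x E ∈ G := by
        intro E hE
        have := hS' hE
        rw [hG', Finset.mem_image] at this
        obtain ⟨E₀, hE₀, rfl⟩ := this
        rw [Finset.mem_filter] at hE₀
        refine ⟨Finset.notMem_erase _ _, ?_⟩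
        rw [Finset.insert_erase hE₀.2]
        exact hE₀.1
      refine ⟨insert x K, S'.image (fun E => insert x E), ?_, ?_, ?_, ?_⟩
      · intro E hE
        rw [Finset.mem_image] at hE
        obtain ⟨E₀, hE₀, rfl⟩ := hE
        exact (hxS' E₀ hE₀).2
      · rw [Finset.card_image_of_injOn, hSt]
        intro E hE E' hE' h
        rw [Finset.mem_coe] at hE hE'
        rw [← Finset.erase_insert (hxS' E hE).1, ← Finset.erase_insert (hxS' E' hE').1]
        simp only at h
        rw [h]
      · intro E hE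
        rw [Finset.mem_image] at hE
        obtain ⟨E₀, hE₀, rfl⟩ := hE
        exact Finset.insert_subset_insert _ (hK1 E₀ hE₀)
      · intro E hE E' hE' hne
        rw [Finset.mem_image] at hE hE'
        obtain ⟨E₀, hE₀, rfl⟩ := hE
        obtain ⟨E₁, hE₁, rfl⟩ := hE'
        have hne' : E₀ ≠ E₁ := fun h => hne (by rw [h])
        have h1 := hK2 E₀ hE₀ E₁ hE₁ hne'
        rw [Finset.disjoint_left] at h1 ⊢
        intro y hy hy'
        rw [Finset.mem_sdiff, Finset.mem_insert, Finset.mem_insert, not_or] at hy hy'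
        exact h1 (Finset.mem_sdiff.2 ⟨hy.1.resolve_left hy.2.1, hy.2.2⟩)
          (Finset.mem_sdiff.2 ⟨hy'.1.resolve_left hy'.2.1, hy'.2.2⟩)

theorem petals_hit {S : Finset (Finset α)} {K : Finset α} (h : Sun S K) (A : Finset α)
    (hA : Disjoint K A) : #{E ∈ S | ¬ Disjoint E A} ≤ #A := by
  apply Finset.card_le_card_of_forall_subsingleton (fun E x => x ∈ E)
  · intro E hE
    rw [Finset.mem_filter, Finset.not_disjoint_iff] at hE
    obtain ⟨_, x, hx, hx'⟩ := hE
    exact ⟨x, hx', hx⟩
  · intro x hx E hE E' hE'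
    obtain ⟨hE, hxE⟩ := hE
    obtain ⟨hE', hxE'⟩ := hE'
    rw [Finset.mem_filter] at hE hE'
    by_contra hne
    have hxK : x ∉ K := fun hxK => (Finset.disjoint_left.1 hA) hxK hx
    exact (Finset.disjoint_left.1 (h.2 E hE.1 E' hE'.1 hne))
      (Finset.mem_sdiff.2 ⟨hxE, hxK⟩) (Finset.mem_sdiff.2 ⟨hxE', hxK⟩)

theorem kernel_meets {S : Finset (Finset α)} {K : Finset α} (h : Sun S K) (A : Finset α)
    (hA : #A < #S) (hm : ∀ E ∈ S, ¬ Disjoint E A) : ¬ Disjoint K A := by
  intro hd
  have h1 := petals_hit h A hd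
  rw [Finset.filter_true_of_mem hm] at h1
  omega

theorem kernel_disjoint {S : Finset (Finset α)} {K : Finset α} (h : Sun S K) (A : Finset α)
    (hS : 0 < #S) (hm : ∀ E ∈ S, Disjoint E A) : Disjoint K A := by
  obtain ⟨E, hE⟩ := Finset.card_pos.1 hS
  exact Finset.disjoint_of_subset_left (h.1 E hE) (hm E hE)

theorem kernel_card {F : Finset (Finset α)} {k t : ℕ} (hF : ∀ E ∈ F, #E = k) (ht : 2 ≤ t)
    {K : Finset α} (hK : IsKernel F t K) : #K < k := by
  obtain ⟨S, hSF, hSt, hS⟩ := hK
  have h1 : 1 < #S := by omega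
  rw [Finset.one_lt_card] at h1
  obtain ⟨E, hE, E', hE', hne⟩ := h1
  have h2 := Finset.card_le_card (hS.1 E hE)
  rw [hF E (hSF hE)] at h2
  by_contra hcon
  have h3 : #K = k := by omega
  have h4 : K = E := Finset.eq_of_subset_of_card_le (hS.1 E hE) (by rw [hF E (hSF hE), h3])
  have h5 : K = E' := Finset.eq_of_subset_of_card_le (hS.1 E' hE') (by rw [hF E' (hSF hE'), h3])
  exact hne (h4.symm.trans h5)

theorem kernel_count {F : Finset (Finset α)} {k t s : ℕ} (hF : ∀ E ∈ F, #E = k)
    (hs : ∀ A ∈ F, #{B ∈ F | Disjoint A B} ≤ s) {K : Finset α} (hK : IsKernel F t K) :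
    #{A ∈ F | Disjoint A K} * (t - k) ≤ t * s := by
  obtain ⟨S, hSF, hSt, hS⟩ := hK
  have h1 : ∑ A ∈ F with Disjoint A K, #{E ∈ S | Disjoint A E}
      = ∑ E ∈ S, #{A ∈ F.filter (fun A => Disjoint A K) | Disjoint A E} := by
    simp_rw [Finset.card_filter]
    rw [Finset.sum_comm]
  have h2 : ∀ A ∈ F.filter (fun A => Disjoint A K), t - k ≤ #{E ∈ S | Disjoint A E} := by
    intro A hA
    rw [Finset.mem_filter] at hA
    have h3 := petals_hit hS A hA.2.symm
    have h4 := Finset.card_filter_add_card_filter_not (s := S) (fun E => Disjoint A E)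
    have h5 : S.filter (fun E => ¬ Disjoint A E) = S.filter (fun E => ¬ Disjoint E A) := by
      apply Finset.filter_congr
      intro E _
      rw [disjoint_comm]
    rw [h5] at h4
    rw [hF A hA.1] at h3
    omega
  have h3 := Finset.card_nsmul_le_sum _ _ _ h2
  rw [h1, smul_eq_mul] at h3
  refine h3.trans ?_
  have h4 : ∀ E ∈ S, #{A ∈ F.filter (fun A => Disjoint A K) | Disjoint A E} ≤ s := by
    intro E hE
    refine (Finset.card_le_card ?_).trans (hs E (hSF hE))
    intro A hA
    rw [Finset.mem_filter, Finset.mem_filter] at hA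
    rw [Finset.mem_filter]
    exact ⟨hA.1.1, hA.2.symm⟩
  refine (Finset.sum_le_card_nsmul _ _ _ h4).trans ?_
  rw [hSt, smul_eq_mul]

/-- every member of `G` is disjoint from a member of `R` -/
def Cov (G R : Finset (Finset α)) : Prop := ∀ A ∈ G, ∃ B ∈ R, Disjoint A B

theorem cleaning (n : ℕ) (G T : Finset (Finset α)) (hG : ∀ A ∈ G, #A ≤ n)
    (hT : ∀ B ∈ T, #B ≤ n) (hcov : ∀ A ∈ G, ∃ B ∈ T, Disjoint A B) (M : ℕ) :
    ∃ R ⊆ T, #{A ∈ G | ∀ B ∈ R, ¬ Disjoint A B} ≤ M * (2 * n).choose n ∧
      ∀ B ∈ R, M < #{A ∈ G | Disjoint A B ∧ ∀ B' ∈ R, B' ≠ B → ¬ Disjoint A B'} := by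
  classical
  -- a minimal cover
  have hne : (T.powerset.filter (fun R => Cov G R)).Nonempty :=
    ⟨T, by rw [Finset.mem_filter, Finset.mem_powerset]; exact ⟨subset_rfl, hcov⟩⟩
  obtain ⟨R₀, hR₀, hmin⟩ := Finset.exists_min_image _ Finset.card hne
  rw [Finset.mem_filter, Finset.mem_powerset] at hR₀
  have hpriv : ∀ B ∈ R₀, ∃ A ∈ G, Disjoint A B ∧ ∀ B' ∈ R₀, B ≠ B' → ¬ Disjoint A B' := by
    intro B hB
    by_contra hcon
    push Not at hcon
    have h1 : R₀.erase B ∈ T.powerset.filter (fun R => Cov G R) := by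
      rw [Finset.mem_filter, Finset.mem_powerset]
      refine ⟨(Finset.erase_subset _ _).trans hR₀.1, ?_⟩
      intro A hA
      by_cases hAB : Disjoint A B
      · obtain ⟨B', hB', hne', hd⟩ := hcon A hA hAB
        exact ⟨B', Finset.mem_erase.2 ⟨hne'.symm, hB'⟩, hd⟩
      · obtain ⟨B', hB', hd⟩ := hR₀.2 A hA
        refine ⟨B', Finset.mem_erase.2 ⟨?_, hB'⟩, hd⟩
        rintro rfl
        exact hAB hd
    have h2 := hmin _ h1
    rw [Finset.card_erase_of_mem hB] at h2
    have : 0 < #R₀ := Finset.card_pos.2 ⟨B, hB⟩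
    omega
  have hR₀c : #R₀ ≤ (2 * n).choose n := by
    choose! a ha using hpriv
    apply card_le_central n R₀ a id
    · intro B hB
      exact hG _ (ha B hB).1
    · intro B hB
      exact hT _ (hR₀.1 hB)
    · intro B hB
      exact (ha B hB).2.1
    · intro B hB B' hB' hne'
      exact (ha B hB).2.2 B' hB' hne'
  -- clean it
  let left : Finset (Finset α) → ℕ := fun R => #{A ∈ G | ∀ B ∈ R, ¬ Disjoint A B}
  have hne2 : (R₀.powerset.filter (fun R => left R + M * #R ≤ M * #R₀)).Nonempty := by
    refine ⟨R₀, ?_⟩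
    rw [Finset.mem_filter, Finset.mem_powerset]
    refine ⟨subset_rfl, ?_⟩
    have : left R₀ = 0 := by
      rw [Finset.card_eq_zero, Finset.filter_eq_empty_iff]
      intro A hA h
      obtain ⟨B, hB, hd⟩ := hR₀.2 A hA
      exact h B hB hd
    omega
  obtain ⟨R, hR, hminR⟩ := Finset.exists_min_image _ Finset.card hne2
  rw [Finset.mem_filter, Finset.mem_powerset] at hR
  refine ⟨R, hR.1.trans hR₀.1, ?_, ?_⟩
  · have h1 : left R ≤ M * #R₀ := by omega
    exact h1.trans (Nat.mul_le_mul_left _ hR₀c)
  · intro B hB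
    by_contra hcon
    push Not at hcon
    have hRpos : 0 < #R := Finset.card_pos.2 ⟨B, hB⟩
    have h1 : left (R.erase B) ≤ left R +
        #{A ∈ G | Disjoint A B ∧ ∀ B' ∈ R, B' ≠ B → ¬ Disjoint A B'} := by
      refine (Finset.card_le_card ?_).trans (Finset.card_union_le _ _)
      intro A hA
      rw [Finset.mem_filter] at hA
      rw [Finset.mem_union, Finset.mem_filter, Finset.mem_filter]
      by_cases hAB : Disjoint A B
      · right
        refine ⟨hA.1, hAB, ?_⟩
        intro B' hB' hne'
        exact hA.2 B' (Finset.mem_erase.2 ⟨hne', hB'⟩)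
      · left
        refine ⟨hA.1, ?_⟩
        intro B' hB'
        by_cases hBB : B' = B
        · rw [hBB]; exact hAB
        · exact hA.2 B' (Finset.mem_erase.2 ⟨hBB, hB'⟩)
    have h2 : R.erase B ∈ R₀.powerset.filter (fun R => left R + M * #R ≤ M * #R₀) := by
      rw [Finset.mem_filter, Finset.mem_powerset]
      refine ⟨(Finset.erase_subset _ _).trans hR.1, ?_⟩
      rw [Finset.card_erase_of_mem hB]
      have h3 : M * (#R - 1) + M = M * #R := by
        rw [← Nat.mul_succ]
        congr 1
        omega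
      omega
    have h3 := hminR _ h2
    rw [Finset.card_erase_of_mem hB] at h3
    omega

end AlmostInt
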